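import Pool.Agent.Helper59.C2K.Coef

/-!
PROJECT C2 (MP_2b0227_gt): unfolding of the windows of a ring kernel.
-/

namespace Pool.Agent.Helper59.C2K

open LaurentPolynomial Pool.Agent.Helper52.C2

/-- exponent shift of a direction -/
def dx {J : Type} : Dir J → ℤ
  | .X => 1
  | _ => 0

/-- size shift of a direction -/
def dn {J : Type} [DecidableEq J] : Dir J → J → ℤ
  | .V k => Pi.single k 1
  | _ => 0

theorem sum_dir {J : Type} [Fintype J] (f : Dir J → ℝ) :
    ∑ d, f d = f .X + f .Y + ∑ k, f (.V k) := by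
  have e : Function.Bijective (fun o : Option (Option J) => match o with
        | none => (Dir.X : Dir J)
        | some none => Dir.Y
        | some (some k) => Dir.V k) := by
    constructor
    · rintro (_ | _ | k) (_ | _ | l) h <;> simp_all
    · rintro (_ | _ | k)
      · exact ⟨none, rfl⟩
      · exact ⟨some none, rfl⟩
      · exact ⟨some (some k), rfl⟩
  rw [← e.sum_comp f, Fintype.sum_option, Fintype.sum_option]
  ring

/-- one group of terms: `e` is the indicator of a set of directions -/
theorem quad_ind {ι : Type} [Fintype ι] (q : ℤ → ℝ) (t : ℤ) (e : ι → ℤ)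
    (he : ∀ a, e a = 0 ∨ e a = 1) (v : ι → ℝ) :
    ∑ a, ∑ b, v a * q (t + e a + e b) * v b =
      q t * (∑ a, v a - ∑ a, (e a : ℝ) * v a) ^ 2 +
      2 * q (t + 1) * ((∑ a, v a - ∑ a, (e a : ℝ) * v a) * ∑ a, (e a : ℝ) * v a) +
      q (t + 2) * (∑ a, (e a : ℝ) * v a) ^ 2 := by
  have h1 : ∀ a b, v a * q (t + e a + e b) * v b =
      q t * ((v a - e a * v a) * (v b - e b * v b)) +
      q (t + 1) * ((v a - e a * v a) * (e b * v b)) +
      q (t + 1) * ((e a * v a) * (v b - e b * v b)) +
      q (t + 2) * ((e a * v a) * (e b * v b)) := by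
    intro a b
    rcases he a with ha | ha <;> rcases he b with hb | hb <;> rw [ha, hb]
    · rw [show t + 0 + 0 = t by ring]; push_cast; ring
    · rw [show t + 0 + 1 = t + 1 by ring]; push_cast; ring
    · rw [show t + 1 + 0 = t + 1 by ring]; push_cast; ring
    · rw [show t + 1 + 1 = t + 2 by ring]; push_cast; ring
  simp only [h1, Finset.sum_add_distrib, ← Finset.mul_sum, ← Finset.sum_mul,
    Finset.sum_sub_distrib]
  ring

/-- natural entries of the window of a ring kernel -/
noncomputable def nat {J : Type} [DecidableEq J] (f : (J → ℤ) → ℤ → ℝ) (n : J → ℤ) (i : ℤ)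
    (a b : Dir J) : ℝ := f (n - dn a - dn b) (i + dx a + dx b)

/-- The window of a ring kernel: natural entries and the corrections on the diagonal. -/
theorem quad_kwin {J : Type} [Fintype J] [DecidableEq J] (Φ : (J → Tg) → ℝ[T;T⁻¹])
    (n : J → ℤ) (i : ℤ) (f : (J → ℤ) → ℤ → ℝ)
    (hf : ∀ m j, (Φ (fun k => U (m k))).coeff j = f m j) (v : Dir J → ℝ) :
    quad (kwin Φ (fun _ => True) (fun _ => U 0) n i) v =
      (∑ a, ∑ b, v a * nat f n i a b * v b) +
      ∑ k, (if n k = 1 then
        (max (nat f n i (.V k) (.V k)) 0 - nat f n i (.V k) (.V k)) * v (.V k) ^ 2 else 0) := by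
  have hasg : ∀ m : J → ℤ, asg (fun _ => True) (fun _ => U 0) m = fun k => U (m k) := by
    intro m; funext k; simp [asg]
  have hk : ∀ a b, kwin Φ (fun _ => True) (fun _ => U 0) n i a b = nat f n i a b +
      (match a, b with
        | .V k, .V l => if k = l ∧ n k = 1 then
          max (nat f n i (.V k) (.V k)) 0 - nat f n i (.V k) (.V k) else 0
        | _, _ => 0) := by
    intro a b
    cases a <;> cases b <;> simp only [kwin, nat, dn, dx, hasg, hf, sub_zero, add_zero]
    · rw [show i + 1 + 1 = i + 2 by ring]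
    · rename_i k l
      by_cases h : k = l ∧ n k = 1
      · obtain ⟨rfl, h2⟩ := h
        rw [if_pos ⟨rfl, h2⟩, if_pos ⟨rfl, h2⟩, sub_sub, ← Pi.single_add]
        norm_num
      · rw [if_neg h, if_neg h]; ring
  unfold quad
  simp only [hk]
  have h2 : ∀ a b : Dir J, v a * (nat f n i a b + (match a, b with
        | .V k, .V l => if k = l ∧ n k = 1 then
          max (nat f n i (.V k) (.V k)) 0 - nat f n i (.V k) (.V k) else 0
        | _, _ => 0)) * v b = v a * nat f n i a b * v b + (match a, b with
        | .V k, .V l => if k = l ∧ n k = 1 then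
          (max (nat f n i (.V k) (.V k)) 0 - nat f n i (.V k) (.V k)) * v (.V k) ^ 2 else 0
        | _, _ => 0) := by
    intro a b
    cases a <;> cases b <;> simp only [add_zero]
    rename_i k l
    by_cases h : k = l ∧ n k = 1
    · obtain ⟨rfl, h2⟩ := h
      rw [if_pos ⟨rfl, h2⟩, if_pos ⟨rfl, h2⟩]; ring
    · rw [if_neg h, if_neg h]; ring
  simp only [h2, Finset.sum_add_distrib]
  congr 1
  rw [sum_dir]
  simp only [sum_dir, Finset.sum_const_zero, add_zero, zero_add]
  refine Finset.sum_congr rfl (fun k _ => ?_)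
  by_cases h : n k = 1
  · simp [h]
  · simp [h]

end Pool.Agent.Helper59.C2K
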