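import Pool.Agent.Helper59.C2K.All
import Pool.Agent.Helper59.C2K.Win

/-!
PROJECT C2 (MP_2b0227_gt): the kernel `K2` is POS.
-/

namespace Pool.Agent.Helper59.C2K

open LaurentPolynomial Pool.Agent.Helper52.C2

/-- coefficients of the ring kernel -/
noncomputable def k2c (m : Fin 4 → ℤ) (j : ℤ) : ℝ :=
  2 * q3 j - ∑ k, q3 (j - m k) + ∑ k, q3 (j - (∑ l, m l) + m k) - 2 * q3 (j - ∑ l, m l)

theorem K2_coeff (m : Fin 4 → ℤ) (j : ℤ) : (K2 (fun k => U (m k))).coeff j = k2c m j := by
  have h : K2 (fun k => U (m k)) * (1 - T 1) ^ 3 =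
      C 2 * T 0 - T (m 0) - T (m 1) - T (m 2) - T (m 3) + T (m 1 + m 2 + m 3)
      + T (m 0 + m 2 + m 3) + T (m 0 + m 1 + m 3) + T (m 0 + m 1 + m 2)
      - C 2 * T (m 0 + m 1 + m 2 + m 3) := by
    unfold K2
    rw [U_mul_F, U_mul_F]
    have hc : (C 2 : ℝ[T;T⁻¹]) = 2 := map_ofNat C 2
    have g0 := geo_mul (m 0)
    have g1 := geo_mul (m 1)
    have g2 := geo_mul (m 2)
    have g3 := geo_mul (m 3)
    have g01 := geo_mul (m 0 + m 1)
    have g23 := geo_mul (m 2 + m 3)
    have e : ((U (m 0)).F * (U (m 1)).F * geo (m 2 + m 3) +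
        geo (m 0 + m 1) * (U (m 2)).F * (U (m 3)).F) * (1 - T 1) ^ 3 =
        (geo (m 0) * (1 - T 1)) * (geo (m 1) * (1 - T 1)) * (geo (m 2 + m 3) * (1 - T 1)) +
        (geo (m 0 + m 1) * (1 - T 1)) * (geo (m 2) * (1 - T 1)) * (geo (m 3) * (1 - T 1)) := by
      show (geo (m 0) * geo (m 1) * geo (m 2 + m 3) + geo (m 0 + m 1) * geo (m 2) * geo (m 3))
        * (1 - T 1) ^ 3 = _
      ring
    rw [e, g0, g1, g2, g3, g01, g23, hc]
    simp only [T_add, T_zero]
    ring
  rw [coeff_q3 _ _ h]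
  simp only [lam_sub, lam_add, lam_CT, lam_T]
  unfold k2c
  simp only [Fin.sum_univ_four]
  have a0 : j - (m 1 + m 2 + m 3) = j - (m 0 + m 1 + m 2 + m 3) + m 0 := by ring
  have a1 : j - (m 0 + m 2 + m 3) = j - (m 0 + m 1 + m 2 + m 3) + m 1 := by ring
  have a2 : j - (m 0 + m 1 + m 3) = j - (m 0 + m 1 + m 2 + m 3) + m 2 := by ring
  have a3 : j - (m 0 + m 1 + m 2) = j - (m 0 + m 1 + m 2 + m 3) + m 3 := by ring
  rw [a0, a1, a2, a3, sub_zero]
  ring

/-- one group of terms with the binomials -/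
theorem quad_sq {ι : Type} [Fintype ι] (t : ℤ) (e : ι → ℤ)
    (he : ∀ a, e a = 0 ∨ e a = 1) (v : ι → ℝ) :
    ∑ a, ∑ b, v a * q3 (t + e a + e b) * v b =
      sq (t + 2) ((∑ a, (e a : ℝ) * v a) + ((t : ℝ) + 2) * ∑ a, v a) (∑ a, v a) := by
  rw [quad_ind q3 t e he v]
  generalize ∑ a, (e a : ℝ) * v a = d
  generalize ∑ a, v a = s
  rcases lt_or_ge (t + 2) 0 with h | h
  · rw [sq_neg h]
    unfold q3
    rw [if_neg (by omega), if_neg (by omega), if_neg (by omega)]
    ring
  · rw [sq_pos h]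
    have h0 : ∀ r : ℤ, -2 ≤ r → q3 r = ((r : ℝ) + 1) * (r + 2) / 2 := by
      intro r hr
      unfold q3
      split_ifs with h1
      · rfl
      · rcases (show r = -1 ∨ r = -2 by omega) with rfl | rfl <;> norm_num
    rw [h0 t (by omega), h0 (t + 1) (by omega), h0 (t + 2) (by omega)]
    push_cast
    ring

/-- indicator of the directions `Y`, and of some channels -/
def ind (x : ℤ) (c : Fin 4 → ℤ) : Dir (Fin 4) → ℤ
  | .X => x
  | .Y => 0
  | .V k => c k

theorem nat_sum (n : Fin 4 → ℤ) (i : ℤ) (v : Dir (Fin 4) → ℝ) :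
    ∑ a, ∑ b, v a * nat k2c n i a b * v b =
      Qf n (i + 2) (v .X) (v .Y) (fun k => v (.V k)) := by
  have hsum : ∀ a b : Dir (Fin 4), (∑ l, (n - dn a - dn b) l) =
      (∑ l, n l) - (ind 0 (fun _ => 1) a) - (ind 0 (fun _ => 1) b) := by
    intro a b
    have h1 : ∀ d : Dir (Fin 4), ∑ l, dn d l = ind 0 (fun _ => 1) d := by
      intro d
      cases d <;> simp [dn, ind]
    simp only [Pi.sub_apply, Finset.sum_sub_distrib, h1]
  have hk : ∀ a b : Dir (Fin 4), nat k2c n i a b =
      2 * q3 (i + ind 1 (fun _ => 0) a + ind 1 (fun _ => 0) b)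
      - ∑ k, q3 (i - n k + ind 1 (fun l => if l = k then 1 else 0) a
          + ind 1 (fun l => if l = k then 1 else 0) b)
      + ∑ k, q3 (i - (∑ l, n l) + n k + ind 1 (fun l => if l = k then 0 else 1) a
          + ind 1 (fun l => if l = k then 0 else 1) b)
      - 2 * q3 (i - (∑ l, n l) + ind 1 (fun _ => 1) a + ind 1 (fun _ => 1) b) := by
    intro a b
    unfold nat k2c
    rw [hsum a b]
    have d0 : ∀ d : Dir (Fin 4), dx d = ind 1 (fun _ => 0) d := by
      intro d; cases d <;> rfl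
    have d1 : ∀ (d : Dir (Fin 4)) (k : Fin 4), dx d + dn d k =
        ind 1 (fun l => if l = k then 1 else 0) d := by
      intro d k
      cases d with
      | X => simp [dx, dn, ind]
      | Y => simp [dx, dn, ind]
      | V l => simp [dx, dn, ind, Pi.single_apply, eq_comm]
    have d2 : ∀ (d : Dir (Fin 4)) (k : Fin 4), dx d + ind 0 (fun _ => 1) d - dn d k =
        ind 1 (fun l => if l = k then 0 else 1) d := by
      intro d k
      cases d with
      | X => simp [dx, dn, ind]
      | Y => simp [dx, dn, ind]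
      | V l =>
        by_cases h : l = k
        · subst h; simp [dx, dn, ind]
        · simp [dx, dn, ind, h, Ne.symm h]
    have d3 : ∀ d : Dir (Fin 4), dx d + ind 0 (fun _ => 1) d = ind 1 (fun _ => 1) d := by
      intro d; cases d <;> rfl
    have e1 : ∀ k, i + dx a + dx b - (n - dn a - dn b) k =
        i - n k + ind 1 (fun l => if l = k then 1 else 0) a
          + ind 1 (fun l => if l = k then 1 else 0) b := by
      intro k
      rw [← d1 a k, ← d1 b k]
      simp only [Pi.sub_apply]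
      ring
    have e2 : ∀ k, i + dx a + dx b -
        ((∑ l, n l) - (ind 0 (fun _ => 1) a) - (ind 0 (fun _ => 1) b)) +
          (n - dn a - dn b) k = i - (∑ l, n l) + n k + ind 1 (fun l => if l = k then 0 else 1) a
          + ind 1 (fun l => if l = k then 0 else 1) b := by
      intro k
      rw [← d2 a k, ← d2 b k]
      simp only [Pi.sub_apply]
      ring
    have e3 : i + dx a + dx b -
        ((∑ l, n l) - (ind 0 (fun _ => 1) a) - (ind 0 (fun _ => 1) b)) =
        i - (∑ l, n l) + ind 1 (fun _ => 1) a + ind 1 (fun _ => 1) b := by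
      rw [← d3 a, ← d3 b]
      ring
    simp only [e1, e2]
    rw [e3, d0 a, d0 b]
  have hb : ∀ (x : ℤ) (c : Fin 4 → ℤ), (x = 0 ∨ x = 1) → (∀ k, c k = 0 ∨ c k = 1) →
      ∀ d, ind x c d = 0 ∨ ind x c d = 1 := by
    intro x c hx hc d
    cases d with
    | X => exact hx
    | Y => exact Or.inl rfl
    | V k => exact hc k
  have g1 := quad_sq i (ind 1 (fun _ => 0)) (hb _ _ (Or.inr rfl) (fun _ => Or.inl rfl)) v
  have g2 : ∀ k, _ := fun k : Fin 4 => quad_sq (i - n k)
    (ind 1 (fun l => if l = k then 1 else 0)) (hb _ _ (Or.inr rfl)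
      (fun l => by by_cases h : l = k <;> simp [h])) v
  have g3 : ∀ k, _ := fun k : Fin 4 => quad_sq (i - (∑ l, n l) + n k)
    (ind 1 (fun l => if l = k then 0 else 1)) (hb _ _ (Or.inr rfl)
      (fun l => by by_cases h : l = k <;> simp [h])) v
  have g4 := quad_sq (i - ∑ l, n l) (ind 1 (fun _ => 1)) (hb _ _ (Or.inr rfl)
    (fun _ => Or.inr rfl)) v
  have hexp : ∑ a, ∑ b, v a * nat k2c n i a b * v b =
      2 * (∑ a, ∑ b, v a * q3 (i + ind 1 (fun _ => 0) a + ind 1 (fun _ => 0) b) * v b)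
      - ∑ k, (∑ a, ∑ b, v a * q3 (i - n k + ind 1 (fun l => if l = k then 1 else 0) a
          + ind 1 (fun l => if l = k then 1 else 0) b) * v b)
      + ∑ k, (∑ a, ∑ b, v a * q3 (i - (∑ l, n l) + n k +
          ind 1 (fun l => if l = k then 0 else 1) a
          + ind 1 (fun l => if l = k then 0 else 1) b) * v b)
      - 2 * (∑ a, ∑ b, v a * q3 (i - (∑ l, n l) + ind 1 (fun _ => 1) a +
          ind 1 (fun _ => 1) b) * v b) := by
    simp only [hk, Fin.sum_univ_four, Finset.mul_sum, ← Finset.sum_add_distrib,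
      ← Finset.sum_sub_distrib]
    refine Finset.sum_congr rfl (fun a _ => Finset.sum_congr rfl (fun b _ => ?_))
    ring
  rw [hexp, g1, g4, Finset.sum_congr rfl (fun k _ => g2 k),
    Finset.sum_congr rfl (fun k _ => g3 k)]
  have s0 : ∑ d, v d = v .X + v .Y + ∑ k, v (.V k) := sum_dir v
  have s1 : ∀ c : Fin 4 → ℤ, ∑ d, ((ind 1 c d : ℤ) : ℝ) * v d =
      v .X + ∑ k, (c k : ℝ) * v (.V k) := by
    intro c
    rw [sum_dir]
    simp [ind]
  simp only [s0, s1]
  unfold Qf
  have t1 : i + 2 - ∑ l, n l = i - (∑ l, n l) + 2 := by ring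
  have t2 : ∀ k, i + 2 - n k = i - n k + 2 := fun k => by ring
  have t3 : ∀ k, i - (∑ l, n l) + 2 + n k = i - (∑ l, n l) + n k + 2 := fun k => by ring
  simp only [t1, t2, t3]
  have c1 : ∀ k, ∑ l, (((if l = k then (1 : ℤ) else 0) : ℤ) : ℝ) * v (.V l) = v (.V k) := by
    intro k
    simp
  have c2 : ∀ k, ∑ l, (((if l = k then (0 : ℤ) else 1) : ℤ) : ℝ) * v (.V l) =
      (∑ l, v (.V l)) - v (.V k) := by
    intro k
    rw [← c1 k, ← Finset.sum_sub_distrib]
    refine Finset.sum_congr rfl (fun l _ => ?_)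
    by_cases h : l = k <;> simp [h]
  simp only [c1, c2]
  congr 1
  · congr 1
    · congr 1
      · simp
      · refine Finset.sum_congr rfl (fun k _ => ?_)
        congr 1
        push_cast
        ring
    · refine Finset.sum_congr rfl (fun k _ => ?_)
      congr 1
      push_cast
      ring
  · congr 1
    congr 1
    simp only [Int.cast_one, one_mul]
    push_cast
    ring

/-- GoalK2 of the project C2. -/
theorem goalK2 : GoalK2 := by
  intro n i hn
  obtain ⟨lx, ly, lw, h⟩ := One_all n hn (i + 2)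
  refine ⟨fun d => match d with | .X => lx | .Y => ly | .V k => lw k, fun v hv hl => ?_⟩
  rw [quad_kwin K2 n i k2c K2_coeff v, nat_sum]
  have h1 := h (v .X) (v .Y) (fun k => v (.V k)) (fun k hk => hv (.V k) (by
    simp only [true_and, not_le]; omega)) (by
      rw [sum_dir] at hl
      exact hl)
  have hS : ∀ k, nat k2c n i (.V k) (.V k) = Sk n (i + 2) k := by
    intro k
    have h2 := nat_sum n i (fun d => match d with | .V l => if l = k then 1 else 0 | _ => 0)
    unfold Sk
    have h3 : (fun l => if l = k then (1 : ℝ) else 0) = Pi.single k 1 := by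
      funext l
      by_cases h : l = k
      · subst h; simp
      · simp [h]
    simp only [sum_dir, zero_mul, mul_zero, zero_add, add_zero, Finset.sum_const_zero] at h2
    rw [h3] at h2
    rw [← h2]
    simp
  unfold Qp at h1
  simp only [hS]
  exact h1

end Pool.Agent.Helper59.C2K
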