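import Pool.Agent.Helper59.C2K.LeafJ

/-!
PROJECT C2 (MP_2b0227_gt): the windows of the kernel `K2`, assembly of the cases.
-/

namespace Pool.Agent.Helper59.C2K

/-- negative base exponent -/
theorem caseN {n0 n1 n2 n3 a : ℤ} (h0 : 0 ≤ n0) (h1 : 0 ≤ n1) (h2 : 0 ≤ n2) (h3 : 0 ≤ n3)
    (ha : a < 0) : OneR n0 n1 n2 n3 a := by
  have hR : ∀ x w0 w1 w2 w3 t : ℝ, R n0 n1 n2 n3 a x w0 w1 w2 w3 t = 0 := by
    intro x w0 w1 w2 w3 t
    unfold R
    rw [sq_neg ha, sq_neg (by omega : a - n0 < 0), sq_neg (by omega : a - n1 < 0),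
      sq_neg (by omega : a - n2 < 0), sq_neg (by omega : a - n3 < 0),
      sq_neg (by omega : a - n1 - n2 - n3 < 0), sq_neg (by omega : a - n0 - n2 - n3 < 0),
      sq_neg (by omega : a - n0 - n1 - n3 < 0), sq_neg (by omega : a - n0 - n1 - n2 < 0),
      sq_neg (by omega : a - n0 - n1 - n2 - n3 < 0)]
    norm_num
  refine ⟨0, 0, 0, 0, 0, 0, fun x w0 w1 w2 w3 t _ _ _ _ _ => ?_⟩
  unfold Rp
  rw [hR, hR, hR, hR, hR, E_nn _ (le_refl 0), E_nn _ (le_refl 0), E_nn _ (le_refl 0),
    E_nn _ (le_refl 0)]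
  norm_num

theorem sorted {n0 n1 n2 n3 a b : ℤ} (h0 : 0 ≤ n0) (h01 : n0 ≤ n1) (h12 : n1 ≤ n2)
    (h23 : n2 ≤ n3) (hs : n0 + n1 + n2 + n3 = a + b + 1) (hab : a ≤ b) :
    OneR n0 n1 n2 n3 a := by
  rcases lt_or_ge a 0 with ha | ha
  · exact caseN h0 (by omega) (by omega) (by omega) ha
  rcases lt_or_ge b n3 with hg | hg
  · exact caseG h0 h01 h12 h23 hs hab (by omega)
  rcases eq_or_lt_of_le ha with ha0 | ha0
  · subst ha0
    exact caseH0 h0 h01 h12 h23 hs hab hg
  have ha1 : 1 ≤ a := by omega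
  rcases eq_or_lt_of_le h0 with e0 | e0
  · subst e0
    rcases eq_or_lt_of_le h01 with e1 | e1
    · subst e1
      exact caseH1 ha1 h23 hs hab hg
    rcases eq_or_lt_of_le (show 1 ≤ n1 by omega) with e1' | e1'
    · subst e1'
      rcases eq_or_lt_of_le h12 with e2 | e2
      · subst e2
        obtain rfl : a = 1 := by omega
        obtain rfl : n3 = b := by omega
        rcases eq_or_lt_of_le (show 1 ≤ n3 by omega) with e3 | e3
        · subst e3
          exact caseH3c
        · exact caseH3b (by omega)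
      · exact caseH3a ha1 (by omega) h23 hs hab hg
    · exact caseH2 ha1 (by omega) h12 h23 hs hab hg
  rcases eq_or_lt_of_le (show 1 ≤ n0 by omega) with e0' | e0'
  · subst e0'
    rcases eq_or_lt_of_le h01 with e1 | e1
    · subst e1
      rcases eq_or_lt_of_le h12 with e2 | e2
      · subst e2
        rcases eq_or_lt_of_le ha1 with e3 | e3
        · subst e3
          rcases eq_or_lt_of_le (show 1 ≤ n3 by omega) with e4 | e4
          · subst e4
            exact caseH6d
          · exact caseH6c (by omega)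
        · obtain rfl : a = 2 := by omega
          exact caseH6e (by omega)
      · rcases le_or_gt a n2 with e3 | e3
        · exact caseH6a ha1 (by omega) e3 h23 hs hab hg
        · obtain rfl : n2 = a - 1 := by omega
          exact caseH6b (by omega) (by omega) hs hab hg
    · exact caseH5 ha1 (by omega) h12 h23 hs hab hg
  · exact caseH4 ha1 (by omega) h01 h12 h23 hs hab hg

theorem One_le (n : Fin 4 → ℤ) (h : ∀ k, 0 ≤ n k) (a : ℤ) (hab : a ≤ (∑ l, n l) - 1 - a) :
    One n a := by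
  apply One_perm n a (Tuple.sort n)
  apply One_of_OneR
  have hm : Monotone (n ∘ Tuple.sort n) := Tuple.monotone_sort n
  have hsum : ∑ k, (n ∘ Tuple.sort n) k = ∑ k, n k := Equiv.sum_comp (Tuple.sort n) n
  refine sorted (b := (∑ l, n l) - 1 - a) (h _) (hm (by decide)) (hm (by decide))
    (hm (by decide)) ?_ hab
  rw [← hsum, Fin.sum_univ_four]
  ring

theorem One_all (n : Fin 4 → ℤ) (h : ∀ k, 0 ≤ n k) (a : ℤ) : One n a := by
  rcases le_total a ((∑ l, n l) - 1 - a) with h1 | h1
  · exact One_le n h a h1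
  · exact One_mirror n a (One_le n h _ (by omega))

end Pool.Agent.Helper59.C2K
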