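import Pool.Agent.Helper52.C2.Ker

/-!
PROJECT C2 (MP_2b0227_gt): coefficients of a Laurent polynomial `f` from `f * D`.
-/

namespace Pool.Agent.Helper59.C2K

open LaurentPolynomial Pool.Agent.Helper52.C2

/-- pairing of the coefficients of `g` with `q (i - j)` -/
noncomputable def lam (q : ℤ → ℝ) (g : ℝ[T;T⁻¹]) (i : ℤ) : ℝ :=
  g.coeff.sum (fun j c => c * q (i - j))

theorem lam_add (q : ℤ → ℝ) (g h : ℝ[T;T⁻¹]) (i : ℤ) :
    lam q (g + h) i = lam q g i + lam q h i := by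
  unfold lam
  rw [AddMonoidAlgebra.coeff_add]
  exact Finsupp.sum_add_index' (fun j => by simp) (fun j a b => by ring)

theorem lam_CT (q : ℤ → ℝ) (c : ℝ) (n i : ℤ) :
    lam q (C c * T n) i = c * q (i - n) := by
  unfold lam
  rw [← LaurentPolynomial.single_eq_C_mul_T, AddMonoidAlgebra.coeff_single,
    Finsupp.sum_single_index (by simp)]

theorem lam_T (q : ℤ → ℝ) (n i : ℤ) : lam q (T n) i = q (i - n) := by
  have h := lam_CT q 1 n i
  rwa [map_one, one_mul, one_mul] at h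

theorem lam_one (q : ℤ → ℝ) (i : ℤ) : lam q 1 i = q i := by
  have h := lam_T q 0 i
  rwa [T_zero, sub_zero] at h

theorem lam_zero (q : ℤ → ℝ) (i : ℤ) : lam q 0 i = 0 := by
  unfold lam
  simp

theorem lam_C_mul (q : ℤ → ℝ) (c : ℝ) (g : ℝ[T;T⁻¹]) (i : ℤ) :
    lam q (C c * g) i = c * lam q g i := by
  induction g using LaurentPolynomial.induction_on' with
  | add p r hp hr => rw [mul_add, lam_add, lam_add, hp, hr, mul_add]
  | C_mul_T n a => rw [← mul_assoc, ← map_mul, lam_CT, lam_CT, mul_assoc]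

theorem lam_neg (q : ℤ → ℝ) (g : ℝ[T;T⁻¹]) (i : ℤ) : lam q (-g) i = - lam q g i := by
  have h := lam_C_mul q (-1) g i
  rw [map_neg, map_one, neg_one_mul, neg_one_mul] at h
  exact h

theorem lam_sub (q : ℤ → ℝ) (g h : ℝ[T;T⁻¹]) (i : ℤ) :
    lam q (g - h) i = lam q g i - lam q h i := by
  rw [sub_eq_add_neg, lam_add, lam_neg, sub_eq_add_neg]

theorem lam_T_mul (q : ℤ → ℝ) (n : ℤ) (g : ℝ[T;T⁻¹]) (i : ℤ) :
    lam q (T n * g) i = lam q g (i - n) := by
  induction g using LaurentPolynomial.induction_on' with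
  | add p r hp hr => rw [mul_add, lam_add, lam_add, hp, hr]
  | C_mul_T m a =>
    rw [show (T n * (C a * T m) : ℝ[T;T⁻¹]) = C a * T (n + m) by rw [T_add]; ring,
      lam_CT, lam_CT]
    congr 2
    ring

/-- If `q` inverts `D`, then the coefficients of `f` are read off from `f * D`. -/
theorem coeff_eq_lam (D : ℝ[T;T⁻¹]) (q : ℤ → ℝ)
    (hq : ∀ t, lam q D t = if t = 0 then 1 else 0) (f : ℝ[T;T⁻¹]) (i : ℤ) :
    f.coeff i = lam q (f * D) i := by
  induction f using LaurentPolynomial.induction_on' with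
  | add p r hp hr =>
    rw [add_mul, lam_add, ← hp, ← hr, AddMonoidAlgebra.coeff_add]; rfl
  | C_mul_T n a =>
    rw [mul_assoc, lam_C_mul, lam_T_mul, hq, ← LaurentPolynomial.single_eq_C_mul_T,
      AddMonoidAlgebra.coeff_single, Finsupp.single_apply]
    by_cases h : n = i
    · subst h; simp
    · rw [if_neg h, if_neg (by omega), mul_zero]

/-- binomials `C(t+2, 2)` for `t ≥ 0` -/
noncomputable def q3 (t : ℤ) : ℝ := if 0 ≤ t then ((t : ℝ) + 1) * (t + 2) / 2 else 0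

/-- binomials `C(t+3, 3)` for `t ≥ 0` -/
noncomputable def q4 (t : ℤ) : ℝ :=
  if 0 ≤ t then ((t : ℝ) + 1) * (t + 2) * (t + 3) / 6 else 0

theorem lam_q3 (t : ℤ) : lam q3 ((1 - T 1) ^ 3) t = if t = 0 then 1 else 0 := by
  have e : ((1 - T 1) ^ 3 : ℝ[T;T⁻¹]) = 1 - C 3 * T 1 + C 3 * T 2 - T 3 := by
    have h2 : (T 2 : ℝ[T;T⁻¹]) = T 1 * T 1 := by rw [← T_add]; norm_num
    have h3 : (T 3 : ℝ[T;T⁻¹]) = T 1 * T 1 * T 1 := by rw [← T_add, ← T_add]; norm_num
    have hc : (C 3 : ℝ[T;T⁻¹]) = 3 := map_ofNat C 3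
    rw [h2, h3, hc]; ring
  rw [e, lam_sub, lam_add, lam_sub, lam_one, lam_CT, lam_CT, lam_T]
  unfold q3
  rcases lt_trichotomy t 0 with h | h | h
  · rw [if_neg (by omega), if_neg (by omega), if_neg (by omega), if_neg (by omega),
      if_neg (by omega)]; ring
  · subst h; norm_num
  · by_cases h1 : t = 1
    · subst h1; norm_num
    by_cases h2 : t = 2
    · subst h2; norm_num
    rw [if_pos (by omega), if_pos (by omega), if_pos (by omega), if_pos (by omega),
      if_neg (by omega)]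
    push_cast
    ring

theorem lam_q4 (t : ℤ) : lam q4 ((1 - T 1) ^ 4) t = if t = 0 then 1 else 0 := by
  have e : ((1 - T 1) ^ 4 : ℝ[T;T⁻¹]) = 1 - C 4 * T 1 + C 6 * T 2 - C 4 * T 3 + T 4 := by
    have h2 : (T 2 : ℝ[T;T⁻¹]) = T 1 * T 1 := by rw [← T_add]; norm_num
    have h3 : (T 3 : ℝ[T;T⁻¹]) = T 1 * T 1 * T 1 := by rw [← T_add, ← T_add]; norm_num
    have h4 : (T 4 : ℝ[T;T⁻¹]) = T 1 * T 1 * T 1 * T 1 := by
      rw [← T_add, ← T_add, ← T_add]; norm_num
    have hc : (C 4 : ℝ[T;T⁻¹]) = 4 := map_ofNat C 4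
    have hc' : (C 6 : ℝ[T;T⁻¹]) = 6 := map_ofNat C 6
    rw [h2, h3, h4, hc, hc']; ring
  rw [e, lam_add, lam_sub, lam_add, lam_sub, lam_one, lam_CT, lam_CT, lam_CT, lam_T]
  unfold q4
  rcases lt_trichotomy t 0 with h | h | h
  · rw [if_neg (by omega), if_neg (by omega), if_neg (by omega), if_neg (by omega),
      if_neg (by omega), if_neg (by omega)]; ring
  · subst h; norm_num
  · by_cases h1 : t = 1
    · subst h1; norm_num
    by_cases h2 : t = 2
    · subst h2; norm_num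
    by_cases h3 : t = 3
    · subst h3; norm_num
    rw [if_pos (by omega), if_pos (by omega), if_pos (by omega), if_pos (by omega),
      if_pos (by omega), if_neg (by omega)]
    push_cast
    ring

/-- coefficients from `f (1-x)^3` -/
theorem coeff_q3 (f g : ℝ[T;T⁻¹]) (h : f * (1 - T 1) ^ 3 = g) (i : ℤ) :
    f.coeff i = lam q3 g i := by
  rw [← h]; exact coeff_eq_lam _ _ lam_q3 f i

/-- coefficients from `f (1-x)^4` -/
theorem coeff_q4 (f g : ℝ[T;T⁻¹]) (h : f * (1 - T 1) ^ 4 = g) (i : ℤ) :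
    f.coeff i = lam q4 g i := by
  rw [← h]; exact coeff_eq_lam _ _ lam_q4 f i

/-- closure of two rings -/
theorem U_mul_F (a b : ℤ) : ((U a).mul (U b)).F = geo (a + b) := by
  have hne : (1 - T 1 : ℝ[T;T⁻¹]) ≠ 0 := by
    intro h
    have h1 : (T 0 : ℝ[T;T⁻¹]) = T 1 := by rw [T_zero]; exact sub_eq_zero.mp h
    have h2 := congrArg (fun p : ℝ[T;T⁻¹] => lam (fun t => if t = 0 then 1 else 0) p 0) h1
    simp only [lam_T] at h2
    norm_num at h2
  apply mul_right_cancel₀ hne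
  rw [geo_mul]
  show (T a * geo b + geo a * 1) * (1 - T 1) = 1 - T (a + b)
  have h1 := geo_mul a
  have h2 := geo_mul b
  calc (T a * geo b + geo a * 1) * (1 - T 1) = T a * (geo b * (1 - T 1)) + geo a * (1 - T 1) := by
        ring
    _ = 1 - T (a + b) := by rw [h1, h2, T_add]; ring

end Pool.Agent.Helper59.C2K
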