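import Mathlib

/-!
PROJECT C2 (MP_2b0227_gt): the explicit form of the windows of the kernel `K2`.
-/

namespace Pool.Agent.Helper59.C2K

open Finset

/-- the square with a truncation -/
noncomputable def sq (s : ℤ) (u t : ℝ) : ℝ :=
  if 0 ≤ s then u ^ 2 - t ^ 2 * ((s : ℝ) * (s + 1) / 2) else 0

theorem sq_pos {s : ℤ} (h : 0 ≤ s) (u t : ℝ) :
    sq s u t = u ^ 2 - t ^ 2 * ((s : ℝ) * (s + 1) / 2) := if_pos h

theorem sq_neg {s : ℤ} (h : s < 0) (u t : ℝ) : sq s u t = 0 := if_neg (by omega)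

/-- complement rule -/
theorem sq_compl (s : ℤ) (u t : ℝ) :
    sq (-1 - s) (-u) t = u ^ 2 - t ^ 2 * ((s : ℝ) * (s + 1) / 2) - sq s u t := by
  rcases lt_or_ge s 0 with h | h
  · rw [sq_neg h, sq_pos (by omega)]
    push_cast; ring
  · rw [sq_pos h, sq_neg (by omega)]
    ring

/-- the form: `a` is the base exponent plus 2 -/
noncomputable def Qf (n : Fin 4 → ℤ) (a : ℤ) (x y : ℝ) (w : Fin 4 → ℝ) : ℝ :=
  2 * sq a (x + a * (x + y + ∑ k, w k)) (x + y + ∑ k, w k)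
  - ∑ k, sq (a - n k) (x + w k + ((a : ℝ) - n k) * (x + y + ∑ k, w k)) (x + y + ∑ k, w k)
  + ∑ k, sq (a - ∑ l, n l + n k)
      (x + ∑ l, w l - w k + ((a : ℝ) - (∑ l, n l : ℤ) + n k) * (x + y + ∑ k, w k))
      (x + y + ∑ k, w k)
  - 2 * sq (a - ∑ l, n l)
      (x + ∑ l, w l + ((a : ℝ) - (∑ l, n l : ℤ)) * (x + y + ∑ k, w k)) (x + y + ∑ k, w k)

theorem Qf_mirror (n : Fin 4 → ℤ) (a : ℤ) (x y : ℝ) (w : Fin 4 → ℝ) :
    Qf n ((∑ l, n l) - 1 - a) y x w = Qf n a x y w := by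
  have e1 : sq ((∑ l, n l) - 1 - a)
      (y + (((∑ l, n l) - 1 - a : ℤ) : ℝ) * (y + x + ∑ k, w k)) (y + x + ∑ k, w k)
      = (x + ∑ l, w l + ((a : ℝ) - (∑ l, n l : ℤ)) * (x + y + ∑ k, w k)) ^ 2
        - (x + y + ∑ k, w k) ^ 2 * (((a - ∑ l, n l : ℤ) : ℝ) * ((a - ∑ l, n l : ℤ) + 1) / 2)
        - sq (a - ∑ l, n l)
      (x + ∑ l, w l + ((a : ℝ) - (∑ l, n l : ℤ)) * (x + y + ∑ k, w k))
        (x + y + ∑ k, w k) := by
    rw [← sq_compl]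
    congr 1
    · ring
    · push_cast; ring
    · ring
  have e2 : ∀ k, sq ((∑ l, n l) - 1 - a - n k)
      (y + w k + ((((∑ l, n l) - 1 - a : ℤ) : ℝ) - n k) * (y + x + ∑ k, w k))
        (y + x + ∑ k, w k)
      = (x + ∑ l, w l - w k +
          ((a : ℝ) - (∑ l, n l : ℤ) + n k) * (x + y + ∑ k, w k)) ^ 2
        - (x + y + ∑ k, w k) ^ 2 *
          (((a - ∑ l, n l + n k : ℤ) : ℝ) * ((a - ∑ l, n l + n k : ℤ) + 1) / 2)
        - sq (a - ∑ l, n l + n k)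
      (x + ∑ l, w l - w k + ((a : ℝ) - (∑ l, n l : ℤ) + n k) * (x + y + ∑ k, w k))
        (x + y + ∑ k, w k) := by
    intro k
    rw [← sq_compl]
    congr 1
    · ring
    · push_cast; ring
    · ring
  have e3 : ∀ k, sq ((∑ l, n l) - 1 - a - (∑ l, n l) + n k)
      (y + ∑ l, w l - w k + ((((∑ l, n l) - 1 - a : ℤ) : ℝ) - (∑ l, n l : ℤ) + n k) *
        (y + x + ∑ k, w k)) (y + x + ∑ k, w k)
      = (x + w k + ((a : ℝ) - n k) * (x + y + ∑ k, w k)) ^ 2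
        - (x + y + ∑ k, w k) ^ 2 * (((a - n k : ℤ) : ℝ) * ((a - n k : ℤ) + 1) / 2)
        - sq (a - n k)
      (x + w k + ((a : ℝ) - n k) * (x + y + ∑ k, w k)) (x + y + ∑ k, w k) := by
    intro k
    rw [← sq_compl]
    congr 1
    · ring
    · push_cast; ring
    · ring
  have e4 : sq ((∑ l, n l) - 1 - a - (∑ l, n l))
      (y + ∑ l, w l + ((((∑ l, n l) - 1 - a : ℤ) : ℝ) - (∑ l, n l : ℤ)) *
        (y + x + ∑ k, w k)) (y + x + ∑ k, w k)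
      = (x + a * (x + y + ∑ k, w k)) ^ 2
        - (x + y + ∑ k, w k) ^ 2 * ((a : ℝ) * (a + 1) / 2)
        - sq a (x + a * (x + y + ∑ k, w k)) (x + y + ∑ k, w k) := by
    rw [← sq_compl]
    congr 1
    · ring
    · push_cast; ring
    · ring
  unfold Qf
  rw [e1, e4, Finset.sum_congr rfl (fun k _ => e2 k), Finset.sum_congr rfl (fun k _ => e3 k)]
  simp only [Fin.sum_univ_four]
  push_cast
  ring

theorem Qf_perm (n : Fin 4 → ℤ) (a : ℤ) (x y : ℝ) (w : Fin 4 → ℝ) (σ : Equiv.Perm (Fin 4)) :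
    Qf (n ∘ σ) a x y (w ∘ σ) = Qf n a x y w := by
  have h1 : ∑ k, (w ∘ σ) k = ∑ k, w k := Equiv.sum_comp σ w
  have h2 : ∑ k, (n ∘ σ) k = ∑ k, n k := Equiv.sum_comp σ n
  unfold Qf
  rw [h1, h2]
  have h3 := Equiv.sum_comp σ (fun k =>
    sq (a - n k) (x + w k + ((a : ℝ) - n k) * (x + y + ∑ k, w k)) (x + y + ∑ k, w k))
  have h4 := Equiv.sum_comp σ (fun k => sq (a - ∑ l, n l + n k)
      (x + ∑ l, w l - w k + ((a : ℝ) - (∑ l, n l : ℤ) + n k) * (x + y + ∑ k, w k))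
      (x + y + ∑ k, w k))
  simp only [Function.comp_apply] at *
  rw [h3, h4]

/-- natural value of the entry `V_k V_k` -/
noncomputable def Sk (n : Fin 4 → ℤ) (a : ℤ) (k : Fin 4) : ℝ := Qf n a 0 0 (Pi.single k 1)

/-- the form with the positive parts -/
noncomputable def Qp (n : Fin 4 → ℤ) (a : ℤ) (x y : ℝ) (w : Fin 4 → ℝ) : ℝ :=
  Qf n a x y w + ∑ k, (if n k = 1 then (max (Sk n a k) 0 - Sk n a k) * w k ^ 2 else 0)

/-- one-positivity of the window -/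
def One (n : Fin 4 → ℤ) (a : ℤ) : Prop :=
  ∃ (lx ly : ℝ) (lw : Fin 4 → ℝ), ∀ (x y : ℝ) (w : Fin 4 → ℝ), (∀ k, n k = 0 → w k = 0) →
    lx * x + ly * y + ∑ k, lw k * w k = 0 → Qp n a x y w ≤ 0

theorem Sk_mirror (n : Fin 4 → ℤ) (a : ℤ) (k : Fin 4) :
    Sk n ((∑ l, n l) - 1 - a) k = Sk n a k := Qf_mirror n a 0 0 _

theorem One_mirror (n : Fin 4 → ℤ) (a : ℤ) (h : One n ((∑ l, n l) - 1 - a)) : One n a := by
  obtain ⟨lx, ly, lw, h⟩ := h
  refine ⟨ly, lx, lw, fun x y w h0 h1 => ?_⟩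
  have := h y x w h0 (by linarith)
  unfold Qp at this ⊢
  rw [Qf_mirror] at this
  simpa only [Sk_mirror] using this

theorem Sk_perm (n : Fin 4 → ℤ) (a : ℤ) (σ : Equiv.Perm (Fin 4)) (k : Fin 4) :
    Sk (n ∘ σ) a k = Sk n a (σ k) := by
  unfold Sk
  rw [← Qf_perm n a 0 0 (Pi.single (σ k) 1) σ]
  congr 1
  funext j
  by_cases h : j = k
  · subst h; simp
  · have h' : σ j ≠ σ k := fun e => h (σ.injective e)
    simp [h, h']

theorem One_perm (n : Fin 4 → ℤ) (a : ℤ) (σ : Equiv.Perm (Fin 4)) (h : One (n ∘ σ) a) :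
    One n a := by
  obtain ⟨lx, ly, lw, h⟩ := h
  refine ⟨lx, ly, lw ∘ σ.symm, fun x y w h0 h1 => ?_⟩
  have h2 := h x y (w ∘ σ) (fun k hk => h0 _ hk) (by
    rw [← h1]
    congr 1
    rw [← Equiv.sum_comp σ (fun k => (lw ∘ σ.symm) k * w k)]
    refine Finset.sum_congr rfl (fun k _ => ?_)
    simp)
  unfold Qp at h2 ⊢
  rw [Qf_perm] at h2
  simp only [Sk_perm] at h2
  rw [← Equiv.sum_comp σ (fun k =>
    (if n k = 1 then (max (Sk n a k) 0 - Sk n a k) * w k ^ 2 else 0))]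
  exact h2

end Pool.Agent.Helper59.C2K
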