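import Pool.Agent.Helper59.C2K.Form

/-!
PROJECT C2 (MP_2b0227_gt): the windows of the kernel `K2`, case analysis for sorted sizes.
-/

namespace Pool.Agent.Helper59.C2K

/-- the form as a function of numbers; `t` is the sum of all coordinates -/
noncomputable def R (n0 n1 n2 n3 a : ℤ) (x w0 w1 w2 w3 t : ℝ) : ℝ :=
  2 * sq a (x + a * t) t
  - (sq (a - n0) (x + w0 + ((a : ℝ) - n0) * t) t + sq (a - n1) (x + w1 + ((a : ℝ) - n1) * t) t
    + sq (a - n2) (x + w2 + ((a : ℝ) - n2) * t) t + sq (a - n3) (x + w3 + ((a : ℝ) - n3) * t) t)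
  + (sq (a - n1 - n2 - n3) (x + w1 + w2 + w3 + ((a : ℝ) - n1 - n2 - n3) * t) t
    + sq (a - n0 - n2 - n3) (x + w0 + w2 + w3 + ((a : ℝ) - n0 - n2 - n3) * t) t
    + sq (a - n0 - n1 - n3) (x + w0 + w1 + w3 + ((a : ℝ) - n0 - n1 - n3) * t) t
    + sq (a - n0 - n1 - n2) (x + w0 + w1 + w2 + ((a : ℝ) - n0 - n1 - n2) * t) t)
  - 2 * sq (a - n0 - n1 - n2 - n3)
      (x + w0 + w1 + w2 + w3 + ((a : ℝ) - n0 - n1 - n2 - n3) * t) t

theorem Qf_eq_R (n : Fin 4 → ℤ) (a : ℤ) (x y : ℝ) (w : Fin 4 → ℝ) :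
    Qf n a x y w = R (n 0) (n 1) (n 2) (n 3) a x (w 0) (w 1) (w 2) (w 3)
      (x + y + (w 0 + w 1 + w 2 + w 3)) := by
  unfold Qf R
  simp only [Fin.sum_univ_four]
  congr 1
  · congr 1
    congr 1
    · congr 1
      · congr 1
        · congr 1
          · ring
          · push_cast; ring
        · congr 1
          · ring
          · push_cast; ring
      · congr 1
        · ring
        · push_cast; ring
    · congr 1
      · ring
      · push_cast; ring
  · congr 1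
    congr 1
    · ring
    · push_cast; ring

/-- the correction of a diagonal entry -/
noncomputable def E (n : ℤ) (s w : ℝ) : ℝ := if n = 1 then (max s 0 - s) * w ^ 2 else 0

theorem E_ne {n : ℤ} (h : n ≠ 1) (s w : ℝ) : E n s w = 0 := if_neg h

theorem E_nn (n : ℤ) {s : ℝ} (h : 0 ≤ s) (w : ℝ) : E n s w = 0 := by
  unfold E
  split_ifs
  · rw [max_eq_left h]; ring
  · rfl

theorem E_one {s c : ℝ} (hs : s = -c) (hc : 0 ≤ c) (w : ℝ) : E 1 s w = c * w ^ 2 := by
  unfold E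
  rw [if_pos rfl, max_eq_right (by linarith), hs]; ring

/-- the form with the positive parts -/
noncomputable def Rp (n0 n1 n2 n3 a : ℤ) (x w0 w1 w2 w3 t : ℝ) : ℝ :=
  R n0 n1 n2 n3 a x w0 w1 w2 w3 t
  + (E n0 (R n0 n1 n2 n3 a 0 1 0 0 0 1) w0 + E n1 (R n0 n1 n2 n3 a 0 0 1 0 0 1) w1
    + E n2 (R n0 n1 n2 n3 a 0 0 0 1 0 1) w2 + E n3 (R n0 n1 n2 n3 a 0 0 0 0 1 1) w3)

/-- one-positivity, `t` is a coordinate instead of `y` -/
def OneR (n0 n1 n2 n3 a : ℤ) : Prop :=
  ∃ cx c0 c1 c2 c3 ct : ℝ, ∀ x w0 w1 w2 w3 t : ℝ, (n0 = 0 → w0 = 0) → (n1 = 0 → w1 = 0) →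
    (n2 = 0 → w2 = 0) → (n3 = 0 → w3 = 0) →
    cx * x + c0 * w0 + c1 * w1 + c2 * w2 + c3 * w3 + ct * t = 0 →
    Rp n0 n1 n2 n3 a x w0 w1 w2 w3 t ≤ 0

theorem One_of_OneR (n : Fin 4 → ℤ) (a : ℤ) (h : OneR (n 0) (n 1) (n 2) (n 3) a) : One n a := by
  obtain ⟨cx, c0, c1, c2, c3, ct, h⟩ := h
  refine ⟨cx + ct, ct, ![c0 + ct, c1 + ct, c2 + ct, c3 + ct], fun x y w h0 h1 => ?_⟩
  have h2 := h x (w 0) (w 1) (w 2) (w 3) (x + y + (w 0 + w 1 + w 2 + w 3)) (h0 0) (h0 1) (h0 2)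
    (h0 3) (by
      rw [← h1]
      simp only [Fin.sum_univ_four, Matrix.cons_val]
      ring)
  unfold Rp at h2
  unfold Qp Sk
  simp only [Fin.sum_univ_four, Qf_eq_R]
  have e : ∀ k : Fin 4, (0 : ℝ) + 0 + ((Pi.single k (1 : ℝ) : Fin 4 → ℝ) 0 +
      (Pi.single k (1 : ℝ) : Fin 4 → ℝ) 1 + (Pi.single k (1 : ℝ) : Fin 4 → ℝ) 2 +
      (Pi.single k (1 : ℝ) : Fin 4 → ℝ) 3) = 1 := by
    intro k
    fin_cases k <;> simp [Pi.single_apply]
  simp only [e]
  unfold E at h2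
  simpa [Pi.single_apply] using h2

/-! ### the two explicit forms -/

/-- `n3 ≥ b + 1` -/
theorem R_G {n0 n1 n2 n3 a b : ℤ} (h0 : 0 ≤ n0) (h1 : 0 ≤ n1) (h2 : 0 ≤ n2)
    (hs : n0 + n1 + n2 + n3 = a + b + 1) (hab : a ≤ b) (hg : b + 1 ≤ n3)
    (x w0 w1 w2 w3 t : ℝ) :
    R n0 n1 n2 n3 a x w0 w1 w2 w3 t =
      2 * ((n0 * t - w0) * (n1 * t - w1) + (n0 * t - w0) * (n2 * t - w2)
        + (n1 * t - w1) * (n2 * t - w2))
      - ((n0 : ℝ) * n1 + n0 * n2 + n1 * n2) * t ^ 2 := by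
  unfold R
  rw [sq_pos (by omega : (0 : ℤ) ≤ a), sq_pos (by omega : (0 : ℤ) ≤ a - n0),
    sq_pos (by omega : (0 : ℤ) ≤ a - n1), sq_pos (by omega : (0 : ℤ) ≤ a - n2),
    sq_neg (by omega : a - n3 < 0), sq_neg (by omega : a - n1 - n2 - n3 < 0),
    sq_neg (by omega : a - n0 - n2 - n3 < 0), sq_neg (by omega : a - n0 - n1 - n3 < 0),
    sq_pos (by omega : (0 : ℤ) ≤ a - n0 - n1 - n2),
    sq_neg (by omega : a - n0 - n1 - n2 - n3 < 0)]
  push_cast
  ring

/-- all sizes at most `b` -/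
theorem R_H {n0 n1 n2 n3 a b : ℤ} (ha : 0 ≤ a)
    (hs : n0 + n1 + n2 + n3 = a + b + 1) (hab : a ≤ b) (g0 : n0 ≤ b) (g1 : n1 ≤ b)
    (g2 : n2 ≤ b) (g3 : n3 ≤ b) (x w0 w1 w2 w3 t : ℝ) :
    R n0 n1 n2 n3 a x w0 w1 w2 w3 t =
      2 * ((x + a * t) ^ 2 - t ^ 2 * ((a : ℝ) * (a + 1) / 2))
      - (sq (a - n0) (x + w0 + ((a : ℝ) - n0) * t) t + sq (a - n1) (x + w1 + ((a : ℝ) - n1) * t) t
      + sq (a - n2) (x + w2 + ((a : ℝ) - n2) * t) t
      + sq (a - n3) (x + w3 + ((a : ℝ) - n3) * t) t) := by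
  unfold R
  rw [sq_pos ha, sq_neg (by omega : a - n1 - n2 - n3 < 0),
    sq_neg (by omega : a - n0 - n2 - n3 < 0), sq_neg (by omega : a - n0 - n1 - n3 < 0),
    sq_neg (by omega : a - n0 - n1 - n2 < 0),
    sq_neg (by omega : a - n0 - n1 - n2 - n3 < 0)]
  ring

/-! ### case G -/

theorem caseG {n0 n1 n2 n3 a b : ℤ} (h0 : 0 ≤ n0) (h01 : n0 ≤ n1) (h12 : n1 ≤ n2)
    (h23 : n2 ≤ n3) (hs : n0 + n1 + n2 + n3 = a + b + 1) (hab : a ≤ b) (hg : b + 1 ≤ n3) :
    OneR n0 n1 n2 n3 a := by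
  have RG := R_G h0 (by omega : 0 ≤ n1) (by omega : 0 ≤ n2) hs hab hg
  rcases eq_or_lt_of_le h0 with e0 | e0
  · -- n0 = 0
    subst e0
    rcases eq_or_lt_of_le h01 with e1 | e1
    · -- n1 = 0
      subst e1
      refine ⟨0, 0, 0, 0, 0, 0, fun x w0 w1 w2 w3 t k0 k1 k2 k3 _ => ?_⟩
      obtain rfl := k0 rfl
      obtain rfl := k1 rfl
      unfold Rp
      simp only [RG]
      rw [E_ne (by norm_num), E_ne (by norm_num), E_nn _ (by norm_num), E_nn _ (by norm_num)]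
      norm_num
    · rcases eq_or_lt_of_le (show 1 ≤ n1 by omega) with e1' | e1'
      · subst e1'
        rcases eq_or_lt_of_le h12 with e2 | e2
        · subst e2
          refine ⟨0, 0, -1, -1, 0, 1, fun x w0 w1 w2 w3 t k0 k1 k2 k3 hl => ?_⟩
          obtain rfl := k0 rfl
          unfold Rp
          simp only [RG]
          rw [E_ne (by norm_num), E_one (c := 1) (by norm_num) (by norm_num),
            E_one (c := 1) (by norm_num) (by norm_num), E_ne (by omega)]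
          have : t = w1 + w2 := by linarith
          subst this
          push_cast
          nlinarith
        · refine ⟨0, 0, -1, 0, 0, 1, fun x w0 w1 w2 w3 t k0 k1 k2 k3 hl => ?_⟩
          obtain rfl := k0 rfl
          have hn2 : (0 : ℝ) ≤ n2 := by exact_mod_cast (by omega : 0 ≤ n2)
          unfold Rp
          simp only [RG]
          rw [E_ne (by norm_num), E_one (c := n2) (by push_cast; ring) hn2, E_ne (by omega),
            E_ne (by omega)]
          have : t = w1 := by linarith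
          subst this
          push_cast
          nlinarith
      · refine ⟨0, 0, -1, -1, 0, (n1 : ℝ) + n2, fun x w0 w1 w2 w3 t k0 k1 k2 k3 hl => ?_⟩
        obtain rfl := k0 rfl
        have hn1 : (0 : ℝ) ≤ n1 := by exact_mod_cast (by omega : 0 ≤ n1)
        have hn2 : (0 : ℝ) ≤ n2 := by exact_mod_cast (by omega : 0 ≤ n2)
        unfold Rp
        simp only [RG]
        rw [E_ne (by norm_num), E_ne (by omega), E_ne (by omega), E_ne (by omega)]
        have e : n2 * t - w2 = -(n1 * t - w1) := by linarith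
        push_cast
        have : 2 * ((0 * t - 0) * (n1 * t - w1) + (0 * t - 0) * (n2 * t - w2) +
            (n1 * t - w1) * (n2 * t - w2)) - (0 * (n1 : ℝ) + 0 * n2 + n1 * n2) * t ^ 2 +
            (0 + 0 + 0 + 0) = - 2 * (n1 * t - w1) ^ 2 - n1 * n2 * t ^ 2 := by
          rw [e]; ring
        rw [this]
        have := mul_nonneg (mul_nonneg hn1 hn2) (sq_nonneg t)
        nlinarith [sq_nonneg (n1 * t - w1)]
  · rcases eq_or_lt_of_le (show 1 ≤ n0 by omega) with e0' | e0'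
    · subst e0'
      rcases eq_or_lt_of_le h01 with e1 | e1
      · subst e1
        rcases eq_or_lt_of_le h12 with e2 | e2
        · subst e2
          refine ⟨0, -1, -1, -1, 0, 1, fun x w0 w1 w2 w3 t k0 k1 k2 k3 hl => ?_⟩
          unfold Rp
          simp only [RG]
          rw [E_one (c := 1) (by norm_num) (by norm_num),
            E_one (c := 1) (by norm_num) (by norm_num),
            E_one (c := 1) (by norm_num) (by norm_num), E_ne (by omega)]
          have : t = w0 + w1 + w2 := by linarith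
          subst this
          push_cast
          nlinarith
        · refine ⟨0, -n2, -n2, -1, 0, n2, fun x w0 w1 w2 w3 t k0 k1 k2 k3 hl => ?_⟩
          have hn2 : (2 : ℝ) ≤ n2 := by exact_mod_cast (by omega : 2 ≤ n2)
          unfold Rp
          simp only [RG]
          rw [E_one (c := 1) (by push_cast; ring) (by norm_num),
            E_one (c := 1) (by push_cast; ring) (by norm_num), E_ne (by omega),
            E_ne (by omega)]
          have : w2 = n2 * (t - w0 - w1) := by linarith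
          subst this
          push_cast
          have e : 2 * ((1 * t - w0) * (1 * t - w1) + (1 * t - w0) * (n2 * t - n2 * (t - w0 - w1))
              + (1 * t - w1) * (n2 * t - n2 * (t - w0 - w1))) - (1 * 1 + 1 * n2 + 1 * n2) * t ^ 2
              + (1 * w0 ^ 2 + 1 * w1 ^ 2 + 0 + 0) = (1 - 2 * (n2 : ℝ)) * (t - w0 - w1) ^ 2 := by
            ring
          rw [e]
          nlinarith [sq_nonneg (t - w0 - w1)]
      · refine ⟨0, -1, -1, -1, 0, 1 + n1 + n2, fun x w0 w1 w2 w3 t k0 k1 k2 k3 hl => ?_⟩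
        have hn1 : (2 : ℝ) ≤ n1 := by exact_mod_cast (by omega : 2 ≤ n1)
        have hn2 : (2 : ℝ) ≤ n2 := by exact_mod_cast (by omega : 2 ≤ n2)
        unfold Rp
        simp only [RG]
        rw [E_nn _ (by push_cast; nlinarith), E_ne (by omega), E_ne (by omega),
          E_ne (by omega)]
        have e : n2 * t - w2 = -(1 * t - w0) - (n1 * t - w1) := by linarith
        push_cast
        have : 2 * ((1 * t - w0) * (n1 * t - w1) + (1 * t - w0) * (n2 * t - w2) +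
            (n1 * t - w1) * (n2 * t - w2)) - (1 * (n1 : ℝ) + 1 * n2 + n1 * n2) * t ^ 2 +
            (0 + 0 + 0 + 0) = - ((1 * t - w0) ^ 2 + (n1 * t - w1) ^ 2 +
              ((1 * t - w0) + (n1 * t - w1)) ^ 2) - (n1 + n2 + n1 * n2) * t ^ 2 := by
          rw [e]; ring
        rw [this]
        have h5 : 0 ≤ ((n1 : ℝ) + n2 + n1 * n2) * t ^ 2 := by positivity
        nlinarith [sq_nonneg (1 * t - w0), sq_nonneg (n1 * t - w1),
          sq_nonneg ((1 * t - w0) + (n1 * t - w1))]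
    · refine ⟨0, -1, -1, -1, 0, (n0 : ℝ) + n1 + n2, fun x w0 w1 w2 w3 t k0 k1 k2 k3 hl => ?_⟩
      have hn0 : (2 : ℝ) ≤ n0 := by exact_mod_cast (by omega : 2 ≤ n0)
      have hn1 : (2 : ℝ) ≤ n1 := by exact_mod_cast (by omega : 2 ≤ n1)
      have hn2 : (2 : ℝ) ≤ n2 := by exact_mod_cast (by omega : 2 ≤ n2)
      unfold Rp
      simp only [RG]
      rw [E_ne (by omega), E_ne (by omega), E_ne (by omega), E_ne (by omega)]
      have e : n2 * t - w2 = -(n0 * t - w0) - (n1 * t - w1) := by linarith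
      have : 2 * ((n0 * t - w0) * (n1 * t - w1) + (n0 * t - w0) * (n2 * t - w2) +
          (n1 * t - w1) * (n2 * t - w2)) - (n0 * (n1 : ℝ) + n0 * n2 + n1 * n2) * t ^ 2 +
          (0 + 0 + 0 + 0) = - ((n0 * t - w0) ^ 2 + (n1 * t - w1) ^ 2 +
            ((n0 * t - w0) + (n1 * t - w1)) ^ 2) - (n0 * n1 + n0 * n2 + n1 * n2) * t ^ 2 := by
        rw [e]; ring
      rw [this]
      have h5 : 0 ≤ ((n0 : ℝ) * n1 + n0 * n2 + n1 * n2) * t ^ 2 := by positivity
      nlinarith [sq_nonneg (n0 * t - w0), sq_nonneg (n1 * t - w1),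
        sq_nonneg ((n0 * t - w0) + (n1 * t - w1))]

end Pool.Agent.Helper59.C2K
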