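import Pool.Agent.Helper59.C2K.Leaf

/-!
PROJECT C2 (MP_2b0227_gt): the windows of the kernel `K2`, all sizes at most `b`.
-/

namespace Pool.Agent.Helper59.C2K

/-- uniform description of a truncated square -/
theorem sq_form (s : ℤ) : ∃ e b : ℝ, 0 ≤ b ∧ e * e = e ∧ b = e * s ∧ b * e = b ∧
    (s < 0 → b = 0 ∧ e = 0) ∧ (0 ≤ s → b = s ∧ e = 1) ∧
    ∀ u t : ℝ, sq s u t = (e * u) ^ 2 - t ^ 2 * (b * (b + 1) / 2) := by
  rcases lt_or_ge s 0 with h | h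
  · refine ⟨0, 0, le_refl _, by ring, by ring, by ring, fun _ => ⟨rfl, rfl⟩,
      fun h' => absurd h' (by omega), fun u t => ?_⟩
    rw [sq_neg h]; ring
  · refine ⟨1, s, by exact_mod_cast h, by ring, by ring, by ring, fun h' => absurd h' (by omega),
      fun _ => ⟨rfl, rfl⟩, fun u t => ?_⟩
    rw [sq_pos h]; ring

theorem sq_le (s : ℤ) (u t : ℝ) : 0 ≤ sq s u t + t ^ 2 * ((max s 0 : ℤ) * ((max s 0 : ℤ) + 1) / 2 : ℝ) := by
  rcases lt_or_ge s 0 with h | h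
  · rw [sq_neg h, max_eq_right h.le]; simp
  · rw [sq_pos h, max_eq_left h]; nlinarith [_root_.sq_nonneg u]

section

variable {n0 n1 n2 n3 a b : ℤ}

/-- a = 0 -/
theorem caseH0 (h0 : 0 ≤ n0) (h01 : n0 ≤ n1) (h12 : n1 ≤ n2) (h23 : n2 ≤ n3)
    (hs : n0 + n1 + n2 + n3 = 0 + b + 1) (hb : 0 ≤ b) (hg : n3 ≤ b) :
    OneR n0 n1 n2 n3 0 := by
  have RH := R_H (le_refl 0) hs hb (by omega) (by omega) (by omega) hg
  have key : ∀ (m : ℤ), 0 ≤ m → ∀ w t : ℝ, (m = 0 → w = 0) →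
      sq (0 - m) (0 + w + (((0 : ℤ) : ℝ) - m) * t) t = 0 := by
    intro m hm w t hw
    rcases eq_or_lt_of_le hm with e | e
    · subst e
      rw [hw rfl, sq_pos (by norm_num)]; norm_num
    · rw [sq_neg (by omega)]
  refine ⟨1, 0, 0, 0, 0, 0, fun x w0 w1 w2 w3 t k0 k1 k2 k3 hl => ?_⟩
  have hx : x = 0 := by linarith
  subst hx
  unfold Rp
  simp only [RH]
  rw [key n0 h0 w0 t k0, key n1 (by omega) w1 t k1, key n2 (by omega) w2 t k2,
    key n3 (by omega) w3 t k3]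
  have hE : ∀ (n : ℤ) (s w : ℝ), (n = 1 → 0 ≤ s) → E n s w = 0 := by
    intro n s w h
    by_cases hn : n = 1
    · exact E_nn _ (h hn) _
    · exact E_ne hn _ _
  have z : ∀ m : ℤ, 0 ≤ m → sq (0 - m) (0 + (0 : ℝ) + (((0 : ℤ) : ℝ) - m) * 1) 1 = 0 :=
    fun m hm => key m hm 0 1 (fun _ => rfl)
  rw [hE n0, hE n1, hE n2, hE n3]
  · norm_num
  · intro hn
    rw [z n0 h0, z n1 (by omega), z n2 (by omega), hn, sq_neg (by norm_num)]; norm_num
  · intro hn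
    rw [z n0 h0, z n1 (by omega), z n3 (by omega), hn, sq_neg (by norm_num)]; norm_num
  · intro hn
    rw [z n0 h0, z n2 (by omega), z n3 (by omega), hn, sq_neg (by norm_num)]; norm_num
  · intro hn
    rw [z n1 (by omega), z n2 (by omega), z n3 (by omega), hn, sq_neg (by norm_num)]; norm_num

/-- two zeros -/
theorem caseH1 (ha : 1 ≤ a) (h23 : n2 ≤ n3)
    (hs : 0 + 0 + n2 + n3 = a + b + 1) (hab : a ≤ b) (hg : n3 ≤ b) :
    OneR 0 0 n2 n3 a := by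
  have RH := R_H (by omega : 0 ≤ a) hs hab (by omega) (by omega) (by omega) hg
  refine ⟨0, 0, 0, 0, 0, 0, fun x w0 w1 w2 w3 t k0 k1 k2 k3 _ => ?_⟩
  obtain rfl := k0 rfl
  obtain rfl := k1 rfl
  unfold Rp
  simp only [RH]
  rw [E_ne (by norm_num), E_ne (by norm_num), E_ne (by omega), E_ne (by omega),
    sq_pos (by omega : (0 : ℤ) ≤ a - 0), sq_neg (by omega : a - n2 < 0),
    sq_neg (by omega : a - n3 < 0)]
  push_cast
  nlinarith

/-- one zero, no ones -/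
theorem caseH2 (ha : 1 ≤ a) (h1 : 2 ≤ n1) (h12 : n1 ≤ n2) (h23 : n2 ≤ n3)
    (hs : 0 + n1 + n2 + n3 = a + b + 1) (hab : a ≤ b) (hg : n3 ≤ b) :
    OneR 0 n1 n2 n3 a := by
  have RH := R_H (by omega : 0 ≤ a) hs hab (by omega) (by omega) (by omega) hg
  refine ⟨1, 0, 0, 0, 0, a, fun x w0 w1 w2 w3 t k0 k1 k2 k3 hl => ?_⟩
  obtain rfl := k0 rfl
  have hu : x = - (a * t) := by linarith
  unfold Rp
  simp only [RH]
  rw [E_ne (by norm_num), E_ne (by omega), E_ne (by omega), E_ne (by omega),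
    sq_pos (by omega : (0 : ℤ) ≤ a - 0)]
  have q1 := sq_le (a - n1) (x + w1 + ((a : ℝ) - n1) * t) t
  have q2 := sq_le (a - n2) (x + w2 + ((a : ℝ) - n2) * t) t
  have q3 := sq_le (a - n3) (x + w3 + ((a : ℝ) - n3) * t) t
  have hB : (max (a - n1) 0) + (max (a - n2) 0) + (max (a - n3) 0) ≤ a - 1 := by
    rcases le_total (a - n1) 0 with e1 | e1 <;> rcases le_total (a - n2) 0 with e2 | e2 <;>
      rcases le_total (a - n3) 0 with e3 | e3 <;> simp [e1, e2, e3] <;> omega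
  have p1 : 0 ≤ max (a - n1) 0 := le_max_right _ _
  have p2 : 0 ≤ max (a - n2) 0 := le_max_right _ _
  have p3 : 0 ≤ max (a - n3) 0 := le_max_right _ _
  generalize max (a - n1) 0 = b1 at *
  generalize max (a - n2) 0 = b2 at *
  generalize max (a - n3) 0 = b3 at *
  have hBr : (b1 : ℝ) + b2 + b3 ≤ a - 1 := by exact_mod_cast hB
  have p1r : (0 : ℝ) ≤ b1 := by exact_mod_cast p1
  have p2r : (0 : ℝ) ≤ b2 := by exact_mod_cast p2
  have p3r : (0 : ℝ) ≤ b3 := by exact_mod_cast p3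
  have har : (1 : ℝ) ≤ a := by exact_mod_cast ha
  have hT : (b1 : ℝ) * (b1 + 1) + b2 * (b2 + 1) + b3 * (b3 + 1) ≤ a * (a + 1) := by
    nlinarith [mul_nonneg p1r p2r, mul_nonneg p1r p3r, mul_nonneg p2r p3r]
  have ht := mul_le_mul_of_nonneg_left hT (_root_.sq_nonneg t)
  rw [hu] at q1 q2 q3 ⊢
  push_cast
  nlinarith

end

end Pool.Agent.Helper59.C2K
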