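import Pool.Agent.Helper59.C2K.LeafH

/-!
PROJECT C2 (MP_2b0227_gt): the windows of the kernel `K2`, all sizes at most `b`, continued.
-/

namespace Pool.Agent.Helper59.C2K

theorem sq_ge {a m : ℤ} (hm : a ≤ m) (x w t : ℝ) :
    0 ≤ sq (a - m) (x + w + ((a : ℝ) - m) * t) t := by
  rcases eq_or_lt_of_le hm with e | e
  · subst e
    rw [sq_pos (by omega)]; simp; positivity
  · rw [sq_neg (by omega)]

theorem sq_zero {a m : ℤ} (hm : a ≤ m) : sq (a - m) (0 + 0 + ((a : ℝ) - m) * 1) 1 = 0 := by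
  rcases eq_or_lt_of_le hm with e | e
  · subst e
    rw [sq_pos (by omega)]; simp
  · rw [sq_neg (by omega)]

section

variable {n0 n1 n2 n3 a b : ℤ}

/-- sizes 0, 1, ≥ 2 -/
theorem caseH3a (ha : 1 ≤ a) (h12 : 2 ≤ n2) (h23 : n2 ≤ n3)
    (hs : 0 + 1 + n2 + n3 = a + b + 1) (hab : a ≤ b) (hg : n3 ≤ b) :
    OneR 0 1 n2 n3 a := by
  have RH := R_H (by omega : 0 ≤ a) hs hab (by omega) (by omega) (by omega) hg
  have n2a : a ≤ n2 := by omega
  have n3a : a ≤ n3 := by omega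
  refine ⟨0, 0, -1, 0, 0, 1, fun x w0 w1 w2 w3 t k0 k1 k2 k3 hl => ?_⟩
  obtain rfl := k0 rfl
  have har : (1 : ℝ) ≤ a := by exact_mod_cast ha
  have ht : t = w1 := by linarith
  subst ht
  unfold Rp
  simp only [RH]
  rw [E_ne (by norm_num), E_one (c := a) _ (by linarith), E_ne (by omega), E_ne (by omega),
    sq_pos (by omega : (0 : ℤ) ≤ a - 0), sq_pos (by omega : (0 : ℤ) ≤ a - 1)]
  · have q2 := sq_ge n2a x w2 t
    have q3 := sq_ge n3a x w3 t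
    push_cast
    nlinarith
  · rw [sq_zero n2a, sq_zero n3a, sq_pos (by omega : (0 : ℤ) ≤ a - 0),
      sq_pos (by omega : (0 : ℤ) ≤ a - 1)]
    push_cast
    ring

/-- sizes 0, 1, 1, ≥ 2 -/
theorem caseH3b (h23 : 2 ≤ n3) : OneR 0 1 1 n3 1 := by
  have RH := R_H (by norm_num : (0 : ℤ) ≤ 1) (by ring : 0 + 1 + 1 + n3 = 1 + n3 + 1)
    (by omega) (by omega) (by omega) (by omega) (le_refl n3)
  refine ⟨0, 0, -1, -1, 0, 1, fun x w0 w1 w2 w3 t k0 k1 k2 k3 hl => ?_⟩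
  obtain rfl := k0 rfl
  have ht : t = w1 + w2 := by linarith
  subst ht
  unfold Rp
  simp only [RH]
  rw [E_ne (by norm_num), E_one (c := 1) _ (by norm_num), E_one (c := 1) _ (by norm_num),
    E_ne (by omega), sq_pos (by norm_num : (0 : ℤ) ≤ 1 - 0),
    sq_pos (by norm_num : (0 : ℤ) ≤ 1 - 1), sq_pos (by norm_num : (0 : ℤ) ≤ 1 - 1),
    sq_neg (by omega : 1 - n3 < 0)]
  · push_cast
    nlinarith [_root_.sq_nonneg x]
  · rw [sq_pos (by norm_num : (0 : ℤ) ≤ 1 - 0),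
      sq_pos (by norm_num : (0 : ℤ) ≤ 1 - 1), sq_pos (by norm_num : (0 : ℤ) ≤ 1 - 1),
      sq_neg (by omega : 1 - n3 < 0)]
    norm_num
  · rw [sq_pos (by norm_num : (0 : ℤ) ≤ 1 - 0),
      sq_pos (by norm_num : (0 : ℤ) ≤ 1 - 1), sq_pos (by norm_num : (0 : ℤ) ≤ 1 - 1),
      sq_neg (by omega : 1 - n3 < 0)]
    norm_num

/-- sizes 0, 1, 1, 1 -/
theorem caseH3c : OneR 0 1 1 1 1 := by
  have RH := R_H (n0 := 0) (n1 := 1) (n2 := 1) (n3 := 1) (a := 1) (b := 1) (by norm_num)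
    (by norm_num) (by norm_num) (by norm_num) (by norm_num) (by norm_num) (by norm_num)
  refine ⟨0, 0, -1, -1, -1, 1, fun x w0 w1 w2 w3 t k0 k1 k2 k3 hl => ?_⟩
  obtain rfl := k0 rfl
  have ht : t = w1 + w2 + w3 := by linarith
  subst ht
  have p0 := sq_pos (by norm_num : (0 : ℤ) ≤ 1 - 0)
  have p1 := sq_pos (by norm_num : (0 : ℤ) ≤ 1 - 1)
  unfold Rp
  simp only [RH, p0, p1]
  rw [E_ne (by norm_num), E_one (c := 1) (by norm_num) (by norm_num),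
    E_one (c := 1) (by norm_num) (by norm_num), E_one (c := 1) (by norm_num) (by norm_num)]
  push_cast
  nlinarith [_root_.sq_nonneg x]

/-- sizes at least 2 -/
theorem caseH4 (ha : 1 ≤ a) (h0 : 2 ≤ n0) (h01 : n0 ≤ n1) (h12 : n1 ≤ n2) (h23 : n2 ≤ n3)
    (hs : n0 + n1 + n2 + n3 = a + b + 1) (hab : a ≤ b) (hg : n3 ≤ b) :
    OneR n0 n1 n2 n3 a := by
  have RH := R_H (by omega : 0 ≤ a) hs hab (by omega) (by omega) (by omega) hg
  refine ⟨1, 0, 0, 0, 0, a, fun x w0 w1 w2 w3 t k0 k1 k2 k3 hl => ?_⟩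
  have hu : x = - (a * t) := by linarith
  unfold Rp
  simp only [RH]
  rw [E_ne (by omega), E_ne (by omega), E_ne (by omega), E_ne (by omega)]
  have q0 := sq_le (a - n0) (x + w0 + ((a : ℝ) - n0) * t) t
  have q1 := sq_le (a - n1) (x + w1 + ((a : ℝ) - n1) * t) t
  have q2 := sq_le (a - n2) (x + w2 + ((a : ℝ) - n2) * t) t
  have q3 := sq_le (a - n3) (x + w3 + ((a : ℝ) - n3) * t) t
  have hB : (max (a - n0) 0) + (max (a - n1) 0) + (max (a - n2) 0) + (max (a - n3) 0)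
      ≤ 2 * a - 1 := by
    rcases le_total (a - n0) 0 with e0 | e0 <;> rcases le_total (a - n1) 0 with e1 | e1 <;>
      rcases le_total (a - n2) 0 with e2 | e2 <;>
      rcases le_total (a - n3) 0 with e3 | e3 <;> simp [e0, e1, e2, e3] <;> omega
  have p0 : 0 ≤ max (a - n0) 0 := le_max_right _ _
  have p1 : 0 ≤ max (a - n1) 0 := le_max_right _ _
  have p2 : 0 ≤ max (a - n2) 0 := le_max_right _ _
  have p3 : 0 ≤ max (a - n3) 0 := le_max_right _ _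
  have r0 : max (a - n0) 0 ≤ a - 1 := max_le (by omega) (by omega)
  have r1 : max (a - n1) 0 ≤ a - 1 := max_le (by omega) (by omega)
  have r2 : max (a - n2) 0 ≤ a - 1 := max_le (by omega) (by omega)
  have r3 : max (a - n3) 0 ≤ a - 1 := max_le (by omega) (by omega)
  generalize max (a - n0) 0 = b0 at *
  generalize max (a - n1) 0 = b1 at *
  generalize max (a - n2) 0 = b2 at *
  generalize max (a - n3) 0 = b3 at *
  have hBr : (b0 : ℝ) + b1 + b2 + b3 ≤ 2 * a - 1 := by exact_mod_cast hB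
  have p0r : (0 : ℝ) ≤ b0 := by exact_mod_cast p0
  have p1r : (0 : ℝ) ≤ b1 := by exact_mod_cast p1
  have p2r : (0 : ℝ) ≤ b2 := by exact_mod_cast p2
  have p3r : (0 : ℝ) ≤ b3 := by exact_mod_cast p3
  have r0r : (b0 : ℝ) ≤ a - 1 := by exact_mod_cast r0
  have r1r : (b1 : ℝ) ≤ a - 1 := by exact_mod_cast r1
  have r2r : (b2 : ℝ) ≤ a - 1 := by exact_mod_cast r2
  have r3r : (b3 : ℝ) ≤ a - 1 := by exact_mod_cast r3
  have har : (1 : ℝ) ≤ a := by exact_mod_cast ha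
  have m0 := mul_le_mul_of_nonneg_left r0r p0r
  have m1 := mul_le_mul_of_nonneg_left r1r p1r
  have m2 := mul_le_mul_of_nonneg_left r2r p2r
  have m3 := mul_le_mul_of_nonneg_left r3r p3r
  have m4 := mul_le_mul_of_nonneg_left hBr (by linarith : (0 : ℝ) ≤ a)
  have hT : (b0 : ℝ) * (b0 + 1) + b1 * (b1 + 1) + b2 * (b2 + 1) + b3 * (b3 + 1) ≤
      2 * (a * (a + 1)) := by
    nlinarith
  have ht := mul_le_mul_of_nonneg_left hT (_root_.sq_nonneg t)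
  rw [hu] at q0 q1 q2 q3 ⊢
  nlinarith

/-- sizes 1, 1, ≥ max(a,2), ≥ max(a,2) -/
theorem caseH6a (ha : 1 ≤ a) (h2 : 2 ≤ n2) (n2a : a ≤ n2) (h23 : n2 ≤ n3)
    (hs : 1 + 1 + n2 + n3 = a + b + 1) (hab : a ≤ b) (hg : n3 ≤ b) :
    OneR 1 1 n2 n3 a := by
  have RH := R_H (by omega : 0 ≤ a) hs hab (by omega) (by omega) (by omega) hg
  have n3a : a ≤ n3 := by omega
  refine ⟨1, -((a : ℝ) - 1), -((a : ℝ) - 1), 0, 0, (a : ℝ) - 1,
    fun x w0 w1 w2 w3 t k0 k1 k2 k3 hl => ?_⟩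
  have har : (1 : ℝ) ≤ a := by exact_mod_cast ha
  have q2 := sq_ge n2a x w2 t
  have q3 := sq_ge n3a x w3 t
  have p1 := sq_pos (by omega : (0 : ℤ) ≤ a - 1)
  unfold Rp
  simp only [RH]
  rw [E_one (c := 1) _ (by norm_num), E_one (c := 1) _ (by norm_num), E_ne (by omega),
    E_ne (by omega)]
  · have hx : x = -(((a : ℝ) - 1) * (t - w0 - w1)) := by linarith
    rw [p1, p1]
    have e : 2 * ((x + a * t) ^ 2 - t ^ 2 * ((a : ℝ) * (a + 1) / 2)) -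
        ((x + w0 + ((a : ℝ) - ((1 : ℤ) : ℝ)) * t) ^ 2 -
            t ^ 2 * (((a - 1 : ℤ) : ℝ) * (((a - 1 : ℤ) : ℝ) + 1) / 2) +
          ((x + w1 + ((a : ℝ) - ((1 : ℤ) : ℝ)) * t) ^ 2 -
            t ^ 2 * (((a - 1 : ℤ) : ℝ) * (((a - 1 : ℤ) : ℝ) + 1) / 2)))
        + (1 * w0 ^ 2 + 1 * w1 ^ 2) = -(2 * ((a : ℝ) - 1)) * (t - w0 - w1) ^ 2 := by
      rw [hx]; push_cast; ring
    have e2 : 0 ≤ (2 * ((a : ℝ) - 1)) * (t - w0 - w1) ^ 2 :=
      mul_nonneg (by linarith) (_root_.sq_nonneg _)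
    linarith
  · rw [sq_zero n2a, sq_zero n3a, p1, p1]
    push_cast
    ring
  · rw [sq_zero n2a, sq_zero n3a, p1, p1]
    push_cast
    ring

/-- sizes 1, 1, a - 1, ≥ a with a ≥ 3 -/
theorem caseH6b (ha : 3 ≤ a) (n3a : a ≤ n3)
    (hs : 1 + 1 + (a - 1) + n3 = a + b + 1) (hab : a ≤ b) (hg : n3 ≤ b) :
    OneR 1 1 (a - 1) n3 a := by
  have RH := R_H (by omega : 0 ≤ a) hs hab (by omega) (by omega) (by omega) hg
  refine ⟨0, -((a : ℝ) - 1), -((a : ℝ) - 1), -1, 0, (a : ℝ) - 1,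
    fun x w0 w1 w2 w3 t k0 k1 k2 k3 hl => ?_⟩
  have har : (3 : ℝ) ≤ a := by exact_mod_cast ha
  have q3 := sq_ge n3a x w3 t
  have p1 := sq_pos (by omega : (0 : ℤ) ≤ a - 1)
  have p2 := sq_pos (by omega : (0 : ℤ) ≤ a - (a - 1))
  unfold Rp
  simp only [RH]
  rw [E_one (c := 1) _ (by norm_num), E_one (c := 1) _ (by norm_num), E_ne (by omega),
    E_ne (by omega)]
  · have hw : w2 = ((a : ℝ) - 1) * (t - w0 - w1) := by linarith
    rw [p1, p1, p2]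
    have e : 2 * ((x + a * t) ^ 2 - t ^ 2 * ((a : ℝ) * (a + 1) / 2)) -
        ((x + w0 + ((a : ℝ) - ((1 : ℤ) : ℝ)) * t) ^ 2 -
            t ^ 2 * (((a - 1 : ℤ) : ℝ) * (((a - 1 : ℤ) : ℝ) + 1) / 2) +
          ((x + w1 + ((a : ℝ) - ((1 : ℤ) : ℝ)) * t) ^ 2 -
            t ^ 2 * (((a - 1 : ℤ) : ℝ) * (((a - 1 : ℤ) : ℝ) + 1) / 2)) +
          ((x + w2 + ((a : ℝ) - ((a - 1 : ℤ) : ℝ)) * t) ^ 2 -
            t ^ 2 * (((a - (a - 1) : ℤ) : ℝ) * (((a - (a - 1) : ℤ) : ℝ) + 1) / 2)))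
        + (1 * w0 ^ 2 + 1 * w1 ^ 2) =
        -(x + a * (t - w0 - w1) - 2 * (t - w0 - w1)) ^ 2 -
          (2 * (a : ℝ) - 3) * (t - w0 - w1) ^ 2 := by
      rw [hw]; push_cast; ring
    have e2 : 0 ≤ (2 * (a : ℝ) - 3) * (t - w0 - w1) ^ 2 :=
      mul_nonneg (by linarith) (_root_.sq_nonneg _)
    nlinarith [_root_.sq_nonneg (x + a * (t - w0 - w1) - 2 * (t - w0 - w1))]
  · rw [sq_zero n3a, p1, p1, p2]
    push_cast
    ring
  · rw [sq_zero n3a, p1, p1, p2]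
    push_cast
    ring

/-- a = 1, sizes 1, 1, 1, ≥ 2 -/
theorem caseH6c (h3 : 2 ≤ n3) : OneR 1 1 1 n3 1 := by
  have RH := R_H (by norm_num : (0 : ℤ) ≤ 1) (by ring : 1 + 1 + 1 + n3 = 1 + (n3 + 1) + 1)
    (by omega) (by omega) (by omega) (by omega) (by omega : n3 ≤ n3 + 1)
  have p1 := sq_pos (by norm_num : (0 : ℤ) ≤ 1 - 1)
  have p3 := sq_neg (by omega : 1 - n3 < 0)
  refine ⟨1, 0, 0, 0, 0, 0, fun x w0 w1 w2 w3 t k0 k1 k2 k3 hl => ?_⟩
  have hx : x = 0 := by linarith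
  subst hx
  unfold Rp
  simp only [RH, p1, p3]
  rw [E_one (c := 1) (by norm_num) (by norm_num), E_one (c := 1) (by norm_num) (by norm_num),
    E_one (c := 1) (by norm_num) (by norm_num), E_ne (by omega)]
  push_cast
  nlinarith

/-- a = 1, sizes 1, 1, 1, 1 -/
theorem caseH6d : OneR 1 1 1 1 1 := by
  have RH := R_H (n0 := 1) (n1 := 1) (n2 := 1) (n3 := 1) (a := 1) (b := 2) (by norm_num)
    (by norm_num) (by norm_num) (by norm_num) (by norm_num) (by norm_num) (by norm_num)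
  have p1 := sq_pos (by norm_num : (0 : ℤ) ≤ 1 - 1)
  refine ⟨1, 0, 0, 0, 0, 0, fun x w0 w1 w2 w3 t k0 k1 k2 k3 hl => ?_⟩
  have hx : x = 0 := by linarith
  subst hx
  unfold Rp
  simp only [RH, p1]
  rw [E_one (c := 1) (by norm_num) (by norm_num), E_one (c := 1) (by norm_num) (by norm_num),
    E_one (c := 1) (by norm_num) (by norm_num), E_one (c := 1) (by norm_num) (by norm_num)]
  push_cast
  nlinarith

/-- a = 2, sizes 1, 1, 1, ≥ 2 -/
theorem caseH6e (h3 : 2 ≤ n3) : OneR 1 1 1 n3 2 := by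
  have RH := R_H (by norm_num : (0 : ℤ) ≤ 2) (by ring : 1 + 1 + 1 + n3 = 2 + n3 + 1)
    (by omega) (by omega) (by omega) (by omega) (le_refl n3)
  have p1 := sq_pos (by norm_num : (0 : ℤ) ≤ 2 - 1)
  refine ⟨0, -1, -1, -1, 0, 1, fun x w0 w1 w2 w3 t k0 k1 k2 k3 hl => ?_⟩
  have ht : t = w0 + w1 + w2 := by linarith
  have q3 := sq_ge h3 x w3 t
  have z3 := sq_zero h3
  subst ht
  unfold Rp
  simp only [RH, p1]
  rw [E_one (c := 1) (by rw [z3]; norm_num) (by norm_num),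
    E_one (c := 1) (by rw [z3]; norm_num) (by norm_num),
    E_one (c := 1) (by rw [z3]; norm_num) (by norm_num), E_ne (by omega)]
  push_cast at q3 ⊢
  nlinarith [_root_.sq_nonneg x]

end

end Pool.Agent.Helper59.C2K
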