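import Pool.Agent.Helper59.C2K.LeafI

/-!
PROJECT C2 (MP_2b0227_gt): the windows of the kernel `K2`, exactly one size equal to 1.
-/

namespace Pool.Agent.Helper59.C2K

theorem core {a N t c1 c2 c3 b1 b2 b3 u : ℝ} (ha : 0 < a) (hN : 0 ≤ N)
    (hW : N ^ 2 ≤ (N + 2) * (a ^ 2 - b1 ^ 2 - b2 ^ 2 - b3 ^ 2))
    (hl : a * u + (a - N) * t - b1 * c1 - b2 * c2 - b3 * c3 = 0) :
    u ^ 2 + 2 * u * t - (1 + N) * t ^ 2 - c1 ^ 2 - c2 ^ 2 - c3 ^ 2 ≤ 0 := by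
  set W := a ^ 2 - b1 ^ 2 - b2 ^ 2 - b3 ^ 2 with hWd
  set m := b1 * c1 + b2 * c2 + b3 * c3 with hm
  have hau : a * u = (N - a) * t + m := by rw [hm]; linarith
  have h2 : (0 : ℝ) < N + 2 := by linarith
  have hq : ∀ b c : ℝ, 0 ≤ (N + 2) * b ^ 2 * t ^ 2 - 2 * N * t * b * c + W * c ^ 2 := by
    intro b c
    have e : 0 ≤ (N + 2) * ((N + 2) * b ^ 2 * t ^ 2 - 2 * N * t * b * c + W * c ^ 2) := by
      have e1 : (N + 2) * ((N + 2) * b ^ 2 * t ^ 2 - 2 * N * t * b * c + W * c ^ 2) =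
          ((N + 2) * (b * t) - N * c) ^ 2 + ((N + 2) * W - N ^ 2) * c ^ 2 := by ring
      rw [e1]
      have := mul_nonneg (sub_nonneg.mpr hW) (sq_nonneg c)
      nlinarith [sq_nonneg ((N + 2) * (b * t) - N * c)]
    exact nonneg_of_mul_nonneg_right e h2
  have key : a ^ 2 * (u ^ 2 + 2 * u * t - (1 + N) * t ^ 2 - c1 ^ 2 - c2 ^ 2 - c3 ^ 2) =
      -(((N + 2) * b1 ^ 2 * t ^ 2 - 2 * N * t * b1 * c1 + W * c1 ^ 2) +
        ((N + 2) * b2 ^ 2 * t ^ 2 - 2 * N * t * b2 * c2 + W * c2 ^ 2) +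
        ((N + 2) * b3 ^ 2 * t ^ 2 - 2 * N * t * b3 * c3 + W * c3 ^ 2) +
        ((N + 2) * W - N ^ 2) * t ^ 2 + (b1 * c2 - b2 * c1) ^ 2 + (b1 * c3 - b3 * c1) ^ 2 +
        (b2 * c3 - b3 * c2) ^ 2) := by
    have e1 : a ^ 2 * (u ^ 2 + 2 * u * t - (1 + N) * t ^ 2 - c1 ^ 2 - c2 ^ 2 - c3 ^ 2) =
      (a * u) ^ 2 + 2 * a * t * (a * u) - (1 + N) * a ^ 2 * t ^ 2 -
        a ^ 2 * (c1 ^ 2 + c2 ^ 2 + c3 ^ 2) := by ring
    rw [e1, hau, hm, hWd]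
    ring
  have hpos : 0 < a ^ 2 := by positivity
  have hle : a ^ 2 * (u ^ 2 + 2 * u * t - (1 + N) * t ^ 2 - c1 ^ 2 - c2 ^ 2 - c3 ^ 2) ≤ 0 := by
    rw [key]
    have := mul_nonneg (sub_nonneg.mpr hW) (sq_nonneg t)
    nlinarith [hq b1 c1, hq b2 c2, hq b3 c3, sq_nonneg (b1 * c2 - b2 * c1),
      sq_nonneg (b1 * c3 - b3 * c1), sq_nonneg (b2 * c3 - b3 * c2)]
  by_contra hc
  push Not at hc
  have := mul_pos hpos hc
  linarith

/-- data of an active or inactive size -/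
theorem form3 {a n : ℤ} (hn : 2 ≤ n) : ∃ e b : ℝ, 0 ≤ b ∧ e * e = e ∧
    b = e * ((a : ℝ) - n) ∧ b * e = b ∧ b * (b - 1) ≤ b * (a - 3) ∧
    b * (b + 1) ≤ b * (a - 1) ∧ b = ((max (a - n) 0 : ℤ) : ℝ) ∧
    ∀ u t : ℝ, sq (a - n) u t = (e * u) ^ 2 - t ^ 2 * (b * (b + 1) / 2) := by
  rcases lt_or_ge (a - n) 0 with h | h
  · refine ⟨0, 0, le_refl _, by ring, by ring, by ring, by ring_nf; exact le_refl _,
      by ring_nf; exact le_refl _, by rw [max_eq_right h.le]; simp, fun u t => ?_⟩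
    rw [sq_neg h]; ring
  · have h0 : (0 : ℝ) ≤ (a : ℝ) - n := by exact_mod_cast h
    have h1 : (2 : ℝ) ≤ n := by exact_mod_cast hn
    refine ⟨1, (a : ℝ) - n, h0, by ring, by ring, by ring,
      mul_le_mul_of_nonneg_left (by linarith) h0, mul_le_mul_of_nonneg_left (by linarith) h0,
      by rw [max_eq_left h]; push_cast; ring, fun u t => ?_⟩
    rw [sq_pos h]; push_cast; ring

theorem caseH5 {n1 n2 n3 a b : ℤ} (ha : 1 ≤ a) (h1 : 2 ≤ n1) (h12 : n1 ≤ n2) (h23 : n2 ≤ n3)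
    (hs : 1 + n1 + n2 + n3 = a + b + 1) (hab : a ≤ b) (hg : n3 ≤ b) :
    OneR 1 n1 n2 n3 a := by
  have RH := R_H (by omega : 0 ≤ a) hs hab (by omega) (by omega) (by omega) hg
  obtain ⟨e1, b1, p1, ee1, be1, bb1, m1, m1', x1, s1⟩ := form3 (a := a) h1
  obtain ⟨e2, b2, p2, ee2, be2, bb2, m2, m2', x2, s2⟩ := form3 (a := a) (by omega : 2 ≤ n2)
  obtain ⟨e3, b3, p3, ee3, be3, bb3, m3, m3', x3, s3⟩ := form3 (a := a) (by omega : 2 ≤ n3)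
  have har : (1 : ℝ) ≤ a := by exact_mod_cast ha
  have hBi : (max (a - n1) 0) + (max (a - n2) 0) + (max (a - n3) 0) ≤ a := by omega
  have hB : b1 + b2 + b3 ≤ a := by
    rw [x1, x2, x3]; exact_mod_cast hBi
  have p0 := sq_pos (by omega : (0 : ℤ) ≤ a - 1)
  set N : ℝ := ((a : ℝ) ^ 2 + 3 * a - (b1 * (b1 + 1) + b2 * (b2 + 1) + b3 * (b3 + 1))) / 2
    with hNd
  have hB0 : 0 ≤ b1 + b2 + b3 := by linarith
  have hN2 : 2 ≤ N := by
    have : b1 * (b1 + 1) + b2 * (b2 + 1) + b3 * (b3 + 1) ≤ (b1 + b2 + b3) * (a - 1) := by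
      linarith
    have h3 := mul_le_mul_of_nonneg_right hB (by linarith : (0 : ℝ) ≤ (a : ℝ) - 1)
    rw [hNd]; nlinarith
  have hNW : N ≤ (a ^ 2 - b1 ^ 2 - b2 ^ 2 - b3 ^ 2) + 1 := by
    have h4 : b1 * (b1 - 1) + b2 * (b2 - 1) + b3 * (b3 - 1) ≤ (b1 + b2 + b3) * (a - 3) := by
      linarith
    have h5 : (b1 + b2 + b3) * ((a : ℝ) - 3) ≤ (a - 1) * (a - 2) := by
      rcases le_or_gt 3 a with h | h
      · have hr : (3 : ℝ) ≤ a := by exact_mod_cast h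
        have h3 := mul_le_mul_of_nonneg_right hB (by linarith : (0 : ℝ) ≤ (a : ℝ) - 3)
        nlinarith
      · have hr : (a : ℝ) ≤ 2 := by exact_mod_cast (by omega : a ≤ 2)
        have h6 : (b1 + b2 + b3) * ((a : ℝ) - 3) ≤ 0 :=
          mul_nonpos_of_nonneg_of_nonpos hB0 (by linarith)
        have h7 : 0 ≤ ((a : ℝ) - 1) * (a - 2) := by
          rcases eq_or_lt_of_le ha with h8 | h8
          · rw [← h8]; norm_num
          · have h9 : a = 2 := by omega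
            rw [h9]; norm_num
        linarith
    rw [hNd]; nlinarith
  have hS : R 1 n1 n2 n3 a 0 1 0 0 0 1 = a ^ 2 - b1 ^ 2 - b2 ^ 2 - b3 ^ 2 - N := by
    rw [RH, p0, s1, s2, s3, hNd]
    have q1 : e1 * (0 + 0 + ((a : ℝ) - n1) * 1) = b1 := by rw [be1]; ring
    have q2 : e2 * (0 + 0 + ((a : ℝ) - n2) * 1) = b2 := by rw [be2]; ring
    have q3 : e3 * (0 + 0 + ((a : ℝ) - n3) * 1) = b3 := by rw [be3]; ring
    rw [q1, q2, q3]
    push_cast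
    ring
  rcases le_or_gt 0 (R 1 n1 n2 n3 a 0 1 0 0 0 1) with hpos | hneg
  · refine ⟨1, 0, 0, 0, 0, a, fun x w0 w1 w2 w3 t k0 k1 k2 k3 hl => ?_⟩
    unfold Rp
    rw [E_nn _ hpos, E_ne (by omega), E_ne (by omega), E_ne (by omega), RH, p0, s1, s2, s3]
    have hu : x = -(a * t) := by linarith
    have hNt := mul_nonneg (by linarith : (0 : ℝ) ≤ N) (_root_.sq_nonneg t)
    have e : 2 * ((x + a * t) ^ 2 - t ^ 2 * ((a : ℝ) * (a + 1) / 2)) -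
        ((x + w0 + ((a : ℝ) - ((1 : ℤ) : ℝ)) * t) ^ 2 -
            t ^ 2 * (((a - 1 : ℤ) : ℝ) * (((a - 1 : ℤ) : ℝ) + 1) / 2) +
          ((e1 * (x + w1 + ((a : ℝ) - n1) * t)) ^ 2 - t ^ 2 * (b1 * (b1 + 1) / 2)) +
          ((e2 * (x + w2 + ((a : ℝ) - n2) * t)) ^ 2 - t ^ 2 * (b2 * (b2 + 1) / 2)) +
          ((e3 * (x + w3 + ((a : ℝ) - n3) * t)) ^ 2 - t ^ 2 * (b3 * (b3 + 1) / 2))) +
        (0 + 0 + 0 + 0) =
        -(t - w0) ^ 2 - N * t ^ 2 - (e1 * (x + w1 + ((a : ℝ) - n1) * t)) ^ 2 -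
          (e2 * (x + w2 + ((a : ℝ) - n2) * t)) ^ 2 -
          (e3 * (x + w3 + ((a : ℝ) - n3) * t)) ^ 2 := by
      rw [hNd]
      have e0 : (x + a * t) = 0 := by rw [hu]; ring
      have e0' : x + w0 + ((a : ℝ) - ((1 : ℤ) : ℝ)) * t = w0 - t := by
        rw [hu]; push_cast; ring
      rw [e0, e0']
      push_cast
      ring
    rw [e]
    nlinarith [_root_.sq_nonneg (t - w0), _root_.sq_nonneg (e1 * (x + w1 + ((a : ℝ) - n1) * t)),
      _root_.sq_nonneg (e2 * (x + w2 + ((a : ℝ) - n2) * t)),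
      _root_.sq_nonneg (e3 * (x + w3 + ((a : ℝ) - n3) * t))]
  · -- the row of the isotropic direction
    refine ⟨(a : ℝ) - b1 - b2 - b3, -((a : ℝ) * a + (a - N) - b1 * b1 - b2 * b2 - b3 * b3),
      -b1, -b2, -b3, (a : ℝ) * a + (a - N) - b1 * b1 - b2 * b2 - b3 * b3,
      fun x w0 w1 w2 w3 t k0 k1 k2 k3 hl => ?_⟩
    unfold Rp
    have hE : R 1 n1 n2 n3 a 0 1 0 0 0 1 = -(-(R 1 n1 n2 n3 a 0 1 0 0 0 1)) := by ring
    rw [E_one hE (by linarith), hS, E_ne (by omega), E_ne (by omega), E_ne (by omega), RH, p0,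
      s1, s2, s3]
    have hl' : (a : ℝ) * (x + a * (t - w0)) + (a - N) * (t - w0)
        - b1 * (e1 * (x + w1) + b1 * (t - w0)) - b2 * (e2 * (x + w2) + b2 * (t - w0))
        - b3 * (e3 * (x + w3) + b3 * (t - w0)) = 0 := by
      have g1 : b1 * (e1 * (x + w1) + b1 * (t - w0)) = b1 * (x + w1) + b1 * b1 * (t - w0) := by
        rw [mul_add, ← mul_assoc, bb1]; ring
      have g2 : b2 * (e2 * (x + w2) + b2 * (t - w0)) = b2 * (x + w2) + b2 * b2 * (t - w0) := by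
        rw [mul_add, ← mul_assoc, bb2]; ring
      have g3 : b3 * (e3 * (x + w3) + b3 * (t - w0)) = b3 * (x + w3) + b3 * b3 * (t - w0) := by
        rw [mul_add, ← mul_assoc, bb3]; ring
      rw [g1, g2, g3]
      linarith
    have hW : N ^ 2 ≤ (N + 2) * ((a : ℝ) ^ 2 - b1 ^ 2 - b2 ^ 2 - b3 ^ 2) := by
      have := mul_le_mul_of_nonneg_left hNW (by linarith : (0 : ℝ) ≤ N + 2)
      nlinarith
    have hc := core (by linarith : (0 : ℝ) < a) (by linarith) hW hl'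
    have f1 : e1 * (x + w1 + ((a : ℝ) - n1) * t) = (e1 * (x + w1) + b1 * (t - w0)) + b1 * w0 := by
      rw [be1]; ring
    have f2 : e2 * (x + w2 + ((a : ℝ) - n2) * t) = (e2 * (x + w2) + b2 * (t - w0)) + b2 * w0 := by
      rw [be2]; ring
    have f3 : e3 * (x + w3 + ((a : ℝ) - n3) * t) = (e3 * (x + w3) + b3 * (t - w0)) + b3 * w0 := by
      rw [be3]; ring
    rw [f1, f2, f3]
    generalize e1 * (x + w1) + b1 * (t - w0) = c1 at *
    generalize e2 * (x + w2) + b2 * (t - w0) = c2 at *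
    generalize e3 * (x + w3) + b3 * (t - w0) = c3 at *
    have e : 2 * ((x + a * t) ^ 2 - t ^ 2 * ((a : ℝ) * (a + 1) / 2)) -
        ((x + w0 + ((a : ℝ) - ((1 : ℤ) : ℝ)) * t) ^ 2 -
            t ^ 2 * (((a - 1 : ℤ) : ℝ) * (((a - 1 : ℤ) : ℝ) + 1) / 2) +
          ((c1 + b1 * w0) ^ 2 - t ^ 2 * (b1 * (b1 + 1) / 2)) +
          ((c2 + b2 * w0) ^ 2 - t ^ 2 * (b2 * (b2 + 1) / 2)) +
          ((c3 + b3 * w0) ^ 2 - t ^ 2 * (b3 * (b3 + 1) / 2))) +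
        (-(a ^ 2 - b1 ^ 2 - b2 ^ 2 - b3 ^ 2 - N) * w0 ^ 2 + 0 + 0 + 0) =
        ((x + a * (t - w0)) ^ 2 + 2 * (x + a * (t - w0)) * (t - w0)
          - (1 + N) * (t - w0) ^ 2 - c1 ^ 2 - c2 ^ 2 - c3 ^ 2) +
        2 * w0 * ((a : ℝ) * (x + a * (t - w0)) + (a - N) * (t - w0)
          - b1 * c1 - b2 * c2 - b3 * c3) := by
      rw [hNd]
      push_cast
      ring
    rw [e, hl']
    linarith

end Pool.Agent.Helper59.C2K
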